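import Mathlib
import Pool.Agent.H301R2.TR.GenEntry

set_option autoImplicit false

/-! Bounds and perturbation estimates for the entries of the interpolation matrices. -/

namespace Pool.Agent.L0h39.QA

open Finset Pool.Agent.H301R2.TR

/-- difference of powers -/
theorem pow_sub_pow_le (n : ℕ) (x y : ℂ) (B δ : ℝ) (hB : 1 ≤ B) (hδ : 0 ≤ δ) (hx : ‖x‖ ≤ B)
    (hy : ‖y‖ ≤ B) (hd : ‖x - y‖ ≤ B * δ) : ‖x ^ n - y ^ n‖ ≤ n * B ^ n * δ := by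
  have h := norm_prod_sub_prod_le (range n) (fun _ => x) (fun _ => y) B δ hB hδ (fun _ _ => hx)
    (fun _ _ => hy) (fun _ _ => hd)
  simpa using h

/-- the difference of two values of the one-variable factor -/
theorem LamF_sub_le (lam : ℂ) (k t : ℕ) (x y : ℂ) (A X δ : ℝ) (hA : ‖lam‖ ≤ A) (hX : 1 ≤ X)
    (hδ : 0 ≤ δ) (hx : ‖x‖ ≤ X) (hy : ‖y‖ ≤ X) (hd : ‖x - y‖ ≤ X * δ) :
    ‖LamF lam k t x - LamF lam k t y‖ ≤ (A + k) ^ t * X ^ k * (k * δ) := by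
  have hA0 : 0 ≤ A := (norm_nonneg _).trans hA
  unfold LamF
  rw [← Finset.sum_sub_distrib]
  refine (norm_sum_le _ _).trans ?_
  rw [add_comm A (k : ℝ), add_pow, Finset.sum_mul, Finset.sum_mul]
  apply Finset.sum_le_sum
  intro j hj
  have e : (t.choose j : ℂ) * lam ^ (t - j) * (k.descFactorial j : ℂ) * x ^ (k - j) -
      (t.choose j : ℂ) * lam ^ (t - j) * (k.descFactorial j : ℂ) * y ^ (k - j) =
      (t.choose j : ℂ) * lam ^ (t - j) * (k.descFactorial j : ℂ) * (x ^ (k - j) - y ^ (k - j)) := by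
    ring
  rw [e, norm_mul, norm_mul, norm_mul, norm_pow, Complex.norm_natCast, Complex.norm_natCast]
  have h1 : ((k.descFactorial j : ℕ) : ℝ) ≤ (k : ℝ) ^ j := by
    exact_mod_cast Nat.descFactorial_le_pow k j
  have h2 : ‖x ^ (k - j) - y ^ (k - j)‖ ≤ X ^ k * (k * δ) := by
    refine (pow_sub_pow_le (k - j) x y X δ hX hδ hx hy hd).trans ?_
    have h3 : ((k - j : ℕ) : ℝ) ≤ k := by exact_mod_cast Nat.sub_le k j
    have h4 : X ^ (k - j) ≤ X ^ k := pow_le_pow_right₀ hX (by omega)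
    have h5 : (0 : ℝ) ≤ X ^ (k - j) := by positivity
    calc ((k - j : ℕ) : ℝ) * X ^ (k - j) * δ ≤ (k : ℝ) * X ^ k * δ := by gcongr
      _ = _ := by ring
  calc (t.choose j : ℝ) * ‖lam‖ ^ (t - j) * (k.descFactorial j : ℝ) * ‖x ^ (k - j) - y ^ (k - j)‖
      ≤ (t.choose j : ℝ) * A ^ (t - j) * (k : ℝ) ^ j * (X ^ k * (k * δ)) := by gcongr
    _ = _ := by ring

/-- the bound for the entries -/
noncomputable def Bd (w b l : ℕ) (g R : ℝ) (K M T S : ℕ) : ℝ :=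
  ((1 + b * g * M + K) ^ T * (1 + l * R * S) ^ K) ^ w * (R ^ (l * (S * M))) ^ b

section

variable {w b l : ℕ} {γ : Fin w → Fin b → ℂ} {α ω : Fin w → Fin l → ℂ} {χ χ0 : Fin b → Fin l → ℂ}
  {g R ε : ℝ}

theorem one_le_BL {K M T S : ℕ} (hg : 0 ≤ g) (hR : 1 ≤ R) :
    1 ≤ ((1 + b * g * M + K) ^ T * (1 + l * R * S) ^ K : ℝ) := by
  have b1 : (1 : ℝ) ≤ (1 + b * g * M + K) ^ T := by
    apply one_le_pow₀
    have : (0 : ℝ) ≤ b * g * M := by positivity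
    have : (0 : ℝ) ≤ (K : ℝ) := by positivity
    linarith
  have b2 : (1 : ℝ) ≤ (1 + l * R * S) ^ K := by
    apply one_le_pow₀
    have : (0 : ℝ) ≤ l * R * S := by positivity
    linarith
  exact one_le_mul_of_one_le_of_one_le b1 b2

theorem one_le_Bd (w b l : ℕ) {g R : ℝ} (K M T S : ℕ) (hg : 0 ≤ g) (hR : 1 ≤ R) :
    1 ≤ Bd w b l g R K M T S := by
  unfold Bd
  exact one_le_mul_of_one_le_of_one_le
      (one_le_pow₀ (one_le_BL hg hR)) (one_le_pow₀ (one_le_pow₀ hR))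

theorem facL_norm (hg : 0 ≤ g) (hR : 1 ≤ R) (hγ : ∀ i j, ‖γ i j‖ ≤ g) (hα : ∀ i p, ‖α i p‖ ≤ R)
    (K M T S : ℕ) {k : Fin w → ℕ} {m : Fin b → ℕ} {t : Fin w → ℕ} {s : Fin l → ℕ}
    (hk : ∀ i, k i ≤ K) (hm : ∀ j, m j ≤ M) (ht : ∀ i, t i ≤ T) (hs : ∀ p, s p ≤ S) (i : Fin w) :
    ‖LamF (∑ j, γ i j * (m j : ℂ)) (k i) (t i) (∑ p, α i p * (s p : ℂ))‖ ≤
        ((1 + b * g * M + K) ^ T * (1 + l * R * S) ^ K) := by
  have g1 := norm_natsum_le g M (γ i) m (hγ i) hm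
  have g2 := norm_natsum_le R S (α i) s (hα i) hs
  have hX : (1 : ℝ) ≤ 1 + l * R * S := by
    have : 0 ≤ l * R * (S : ℝ) := by positivity
    linarith
  refine (norm_LamF_le _ (k i) (t i) _ (b * g * M) (1 + l * R * S) g1 hX (by linarith)).trans ?_
  have hki : (k i : ℝ) ≤ K := by exact_mod_cast hk i
  have hb : 0 ≤ b * g * (M : ℝ) := by positivity
  have a1 : (b * g * M + k i) ^ (t i) ≤ (1 + b * g * M + K) ^ T := by
    calc (b * g * M + k i : ℝ) ^ (t i) ≤ (1 + b * g * M + K) ^ (t i) := by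
          apply pow_le_pow_left₀ (by positivity)
          linarith
      _ ≤ _ := pow_le_pow_right₀ (by have : (0 : ℝ) ≤ K := Nat.cast_nonneg _
                                     linarith) (ht i)
  have a2 : (1 + l * R * (S : ℝ)) ^ (k i) ≤ (1 + l * R * S) ^ K :=
    pow_le_pow_right₀ hX (hk i)
  gcongr

theorem facL_sub (hg : 0 ≤ g) (hR : 1 ≤ R) (hε : 0 ≤ ε) (hγ : ∀ i j, ‖γ i j‖ ≤ g)
    (hα : ∀ i p, ‖α i p‖ ≤ R) (hω : ∀ i p, ‖ω i p‖ ≤ R) (hαω : ∀ i p, ‖α i p - ω i p‖ ≤ ε)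
    (K M T S : ℕ) {k : Fin w → ℕ} {m : Fin b → ℕ} {t : Fin w → ℕ} {s : Fin l → ℕ}
    (hk : ∀ i, k i ≤ K) (hm : ∀ j, m j ≤ M) (ht : ∀ i, t i ≤ T) (hs : ∀ p, s p ≤ S) (i : Fin w) :
    ‖LamF (∑ j, γ i j * (m j : ℂ)) (k i) (t i) (∑ p, α i p * (s p : ℂ)) -
      LamF (∑ j, γ i j * (m j : ℂ)) (k i) (t i) (∑ p, ω i p * (s p : ℂ))‖ ≤
        ((1 + b * g * M + K) ^ T * (1 + l * R * S) ^ K) * (K * (l * S * ε)) := by
  have g1 := norm_natsum_le g M (γ i) m (hγ i) hm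
  have g2 := norm_natsum_le R S (α i) s (hα i) hs
  have g2' := norm_natsum_le R S (ω i) s (hω i) hs
  have g3 := norm_natsum_le ε S (fun p => α i p - ω i p) s (hαω i) hs
  have hX : (1 : ℝ) ≤ 1 + l * R * S := by
    have : 0 ≤ l * R * (S : ℝ) := by positivity
    linarith
  have e1 : ∑ p, α i p * (s p : ℂ) - ∑ p, ω i p * (s p : ℂ) =
      ∑ p, (α i p - ω i p) * (s p : ℂ) := by
    rw [← Finset.sum_sub_distrib]
    exact Finset.sum_congr rfl fun p _ => by ring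
  have hd : ‖∑ p, α i p * (s p : ℂ) - ∑ p, ω i p * (s p : ℂ)‖ ≤ (1 + l * R * S) * (l * S * ε) := by
    rw [e1]
    refine g3.trans ?_
    have h0 : 0 ≤ (l : ℝ) * S * ε := by positivity
    calc (l : ℝ) * ε * S = 1 * (l * S * ε) := by ring
      _ ≤ _ := mul_le_mul_of_nonneg_right hX h0
  refine (LamF_sub_le _ (k i) (t i) _ _ (b * g * M) (1 + l * R * S) (l * S * ε) g1 hX
    (by positivity) (by linarith) (by linarith) hd).trans ?_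
  have hki : (k i : ℝ) ≤ K := by exact_mod_cast hk i
  have hb : 0 ≤ b * g * (M : ℝ) := by positivity
  have a1 : (b * g * M + k i) ^ (t i) ≤ (1 + b * g * M + K) ^ T := by
    calc (b * g * M + k i : ℝ) ^ (t i) ≤ (1 + b * g * M + K) ^ (t i) := by
          apply pow_le_pow_left₀ (by positivity)
          linarith
      _ ≤ _ := pow_le_pow_right₀ (by have : (0 : ℝ) ≤ K := Nat.cast_nonneg _
                                     linarith) (ht i)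
  have a2 : (1 + l * R * (S : ℝ)) ^ (k i) ≤ (1 + l * R * S) ^ K :=
    pow_le_pow_right₀ hX (hk i)
  gcongr

/-- products over the points -/
theorem facP_norm (hR : 1 ≤ R) (hχ : ∀ j p, ‖χ j p‖ ≤ R) (S : ℕ) {s : Fin l → ℕ}
    (hs : ∀ p, s p ≤ S) (j : Fin b) : ‖∏ p, χ j p ^ s p‖ ≤ R ^ (l * S) := by
  rw [norm_prod]
  have g1 : ∀ p ∈ (Finset.univ : Finset (Fin l)), ‖χ j p ^ s p‖ ≤ R ^ S := by
    intro p _
    rw [norm_pow]
    exact (pow_le_pow_left₀ (norm_nonneg _) (hχ j p) _).trans (pow_le_pow_right₀ hR (hs p))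
  refine (Finset.prod_le_prod (fun i _ => norm_nonneg _) g1).trans ?_
  simp only [Finset.prod_const, Finset.card_univ, Fintype.card_fin]
  rw [← pow_mul]
  apply le_of_eq; congr 1; ring

theorem facP_sub (hR : 1 ≤ R) (hε : 0 ≤ ε) (hχ : ∀ j p, ‖χ j p‖ ≤ R) (hχ0 : ∀ j p, ‖χ0 j p‖ ≤ R)
    (hd : ∀ j p, ‖χ j p - χ0 j p‖ ≤ ε) (S : ℕ) {s : Fin l → ℕ} (hs : ∀ p, s p ≤ S) (j : Fin b) :
    ‖∏ p, χ j p ^ s p - ∏ p, χ0 j p ^ s p‖ ≤ R ^ (l * S) * (l * S * ε) := by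
  have hpow : ∀ p, ‖χ j p ^ s p - χ0 j p ^ s p‖ ≤ R ^ S * (S * ε) := by
    intro p
    have hd' : ‖χ j p - χ0 j p‖ ≤ R * ε := (hd j p).trans (by nlinarith)
    refine (pow_sub_pow_le (s p) _ _ R ε hR hε (hχ j p) (hχ0 j p) hd').trans ?_
    have h1 : ((s p : ℕ) : ℝ) ≤ S := by exact_mod_cast hs p
    have h2 : R ^ (s p) ≤ R ^ S := pow_le_pow_right₀ hR (hs p)
    have h3 : (0 : ℝ) ≤ R ^ (s p) := by positivity
    calc ((s p : ℕ) : ℝ) * R ^ (s p) * ε ≤ (S : ℝ) * R ^ S * ε := by gcongr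
      _ = _ := by ring
  have hn : ∀ (ξ : Fin b → Fin l → ℂ), (∀ j p, ‖ξ j p‖ ≤ R) → ∀ p ∈ (Finset.univ : Finset (Fin l)),
      ‖ξ j p ^ s p‖ ≤ R ^ S := by
    intro ξ hξ p _
    rw [norm_pow]
    exact (pow_le_pow_left₀ (norm_nonneg _) (hξ j p) _).trans (pow_le_pow_right₀ hR (hs p))
  have h := norm_prod_sub_prod_le (Finset.univ : Finset (Fin l)) (fun p => χ j p ^ s p)
    (fun p => χ0 j p ^ s p) (R ^ S) (S * ε) (one_le_pow₀ hR) (by positivity) (hn χ hχ) (hn χ0 hχ0)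
    (fun p _ => hpow p)
  refine h.trans (le_of_eq ?_)
  rw [Finset.card_univ, Fintype.card_fin, ← pow_mul, mul_comm S l]
  ring

theorem facE_norm (hR : 1 ≤ R) (hχ : ∀ j p, ‖χ j p‖ ≤ R) (M S : ℕ) {m : Fin b → ℕ} {s : Fin l → ℕ}
    (hm : ∀ j, m j ≤ M) (hs : ∀ p, s p ≤ S) (j : Fin b) :
    ‖(∏ p, χ j p ^ s p) ^ m j‖ ≤ R ^ (l * (S * M)) := by
  rw [norm_pow]
  calc ‖∏ p, χ j p ^ s p‖ ^ m j ≤ (R ^ (l * S)) ^ m j :=
        pow_le_pow_left₀ (norm_nonneg _) (facP_norm hR hχ S hs j) _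
    _ = R ^ (l * S * m j) := by rw [← pow_mul]
    _ ≤ _ := by
      apply pow_le_pow_right₀ hR
      calc l * S * m j ≤ l * S * M := Nat.mul_le_mul_left _ (hm j)
        _ = _ := by ring

theorem facE_sub (hR : 1 ≤ R) (hε : 0 ≤ ε) (hχ : ∀ j p, ‖χ j p‖ ≤ R) (hχ0 : ∀ j p, ‖χ0 j p‖ ≤ R)
    (hd : ∀ j p, ‖χ j p - χ0 j p‖ ≤ ε) (M S : ℕ) {m : Fin b → ℕ} {s : Fin l → ℕ}
    (hm : ∀ j, m j ≤ M) (hs : ∀ p, s p ≤ S) (j : Fin b) :
    ‖(∏ p, χ j p ^ s p) ^ m j - (∏ p, χ0 j p ^ s p) ^ m j‖ ≤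
      R ^ (l * (S * M)) * (M * (l * S * ε)) := by
  refine (pow_sub_pow_le (m j) _ _ (R ^ (l * S)) (l * S * ε) (one_le_pow₀ hR) (by positivity)
    (facP_norm hR hχ S hs j) (facP_norm hR hχ0 S hs j) (facP_sub hR hε hχ hχ0 hd S hs j)).trans ?_
  have h1 : ((m j : ℕ) : ℝ) ≤ M := by exact_mod_cast hm j
  have h2 : (R ^ (l * S)) ^ m j ≤ R ^ (l * (S * M)) := by
    rw [← pow_mul]
    apply pow_le_pow_right₀ hR
    calc l * S * m j ≤ l * S * M := Nat.mul_le_mul_left _ (hm j)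
      _ = _ := by ring
  have h3 : (0 : ℝ) ≤ (R ^ (l * S)) ^ m j := by positivity
  calc ((m j : ℕ) : ℝ) * (R ^ (l * S)) ^ m j * (l * S * ε)
      ≤ (M : ℝ) * R ^ (l * (S * M)) * (l * S * ε) := by gcongr
    _ = _ := by ring

/-- bound for the entries, with separate bounds for the `γ` -/
theorem entG_norm' (hg : 0 ≤ g) (hR : 1 ≤ R) (hγ : ∀ i j, ‖γ i j‖ ≤ g) (hα : ∀ i p, ‖α i p‖ ≤ R)
    (hχ : ∀ j p, ‖χ j p‖ ≤ R)
    (K M T S : ℕ) {k : Fin w → ℕ} {m : Fin b → ℕ} {t : Fin w → ℕ} {s : Fin l → ℕ}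
    (hk : ∀ i, k i ≤ K) (hm : ∀ j, m j ≤ M) (ht : ∀ i, t i ≤ T) (hs : ∀ p, s p ≤ S) :
    ‖entG γ α χ k m t s‖ ≤ Bd w b l g R K M T S := by
  unfold entG Bd
  rw [norm_mul]
  have h1 : ‖∏ i, LamF (∑ j, γ i j * (m j : ℂ)) (k i) (t i) (∑ p, α i p * (s p : ℂ))‖ ≤
      ((1 + b * g * M + K) ^ T * (1 + l * R * S) ^ K) ^ w := by
    rw [norm_prod]
    refine (Finset.prod_le_prod (fun i _ => norm_nonneg _)
      (fun i _ => facL_norm hg hR hγ hα K M T S hk hm ht hs i)).trans ?_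
    simp
  have h2 : ‖∏ j, (∏ p, χ j p ^ s p) ^ m j‖ ≤ (R ^ (l * (S * M))) ^ b := by
    rw [norm_prod]
    refine (Finset.prod_le_prod (fun i _ => norm_nonneg _)
      (fun j _ => facE_norm hR hχ M S hm hs j)).trans ?_
    simp
  have h3 : (0 : ℝ) ≤ ((1 + b * g * M + K) ^ T * (1 + l * R * S) ^ K) ^ w := by positivity
  exact mul_le_mul h1 h2 (norm_nonneg _) h3

/-- perturbation of the entries -/
theorem entG_sub (hg : 0 ≤ g) (hR : 1 ≤ R) (hε : 0 ≤ ε) (hγ : ∀ i j, ‖γ i j‖ ≤ g)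
    (hα : ∀ i p, ‖α i p‖ ≤ R) (hω : ∀ i p, ‖ω i p‖ ≤ R) (hαω : ∀ i p, ‖α i p - ω i p‖ ≤ ε)
    (hχ : ∀ j p, ‖χ j p‖ ≤ R) (hχ0 : ∀ j p, ‖χ0 j p‖ ≤ R) (hd : ∀ j p, ‖χ j p - χ0 j p‖ ≤ ε)
    (K M T S : ℕ) {k : Fin w → ℕ} {m : Fin b → ℕ} {t : Fin w → ℕ} {s : Fin l → ℕ}
    (hk : ∀ i, k i ≤ K) (hm : ∀ j, m j ≤ M) (ht : ∀ i, t i ≤ T) (hs : ∀ p, s p ≤ S) :
    ‖entG γ α χ k m t s - entG γ ω χ0 k m t s‖ ≤
      Bd w b l g R K M T S * ((w * K + b * M) * (l * S * ε)) := by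
  unfold entG Bd
  obtain ⟨BL, hBL⟩ : ∃ B : ℝ, B = ((1 + b * g * M + K) ^ T * (1 + l * R * S) ^ K : ℝ) := ⟨_, rfl⟩
  obtain ⟨BE, hBE⟩ : ∃ B : ℝ, B = R ^ (l * (S * M)) := ⟨_, rfl⟩
  have hBL1 : 1 ≤ BL := by rw [hBL]; exact one_le_BL hg hR
  have hBE1 : 1 ≤ BE := by rw [hBE]; exact one_le_pow₀ hR
  have L1 := norm_prod_sub_prod_le (Finset.univ : Finset (Fin w))
    (fun i => LamF (∑ j, γ i j * (m j : ℂ)) (k i) (t i) (∑ p, α i p * (s p : ℂ)))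
    (fun i => LamF (∑ j, γ i j * (m j : ℂ)) (k i) (t i) (∑ p, ω i p * (s p : ℂ)))
    BL (K * (l * S * ε)) hBL1 (by positivity)
    (fun i _ => by rw [hBL]; exact facL_norm hg hR hγ hα K M T S hk hm ht hs i)
    (fun i _ => by rw [hBL]; exact facL_norm hg hR hγ hω K M T S hk hm ht hs i)
    (fun i _ => by rw [hBL]; exact facL_sub hg hR hε hγ hα hω hαω K M T S hk hm ht hs i)
  have E1 := norm_prod_sub_prod_le (Finset.univ : Finset (Fin b))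
    (fun j => (∏ p, χ j p ^ s p) ^ m j) (fun j => (∏ p, χ0 j p ^ s p) ^ m j)
    BE (M * (l * S * ε)) hBE1 (by positivity)
    (fun j _ => by rw [hBE]; exact facE_norm hR hχ M S hm hs j)
    (fun j _ => by rw [hBE]; exact facE_norm hR hχ0 M S hm hs j)
    (fun j _ => by rw [hBE]; exact facE_sub hR hε hχ hχ0 hd M S hm hs j)
  have L2 : ‖∏ i, LamF (∑ j, γ i j * (m j : ℂ)) (k i) (t i) (∑ p, α i p * (s p : ℂ))‖ ≤ BL ^ w := by
    rw [norm_prod]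
    refine (Finset.prod_le_prod (fun i _ => norm_nonneg _)
      (fun i _ => facL_norm hg hR hγ hα K M T S hk hm ht hs i)).trans ?_
    simp [hBL]
  have E2 : ‖∏ j, (∏ p, χ0 j p ^ s p) ^ m j‖ ≤ BE ^ b := by
    rw [norm_prod]
    refine (Finset.prod_le_prod (fun i _ => norm_nonneg _)
      (fun j _ => facE_norm hR hχ0 M S hm hs j)).trans ?_
    simp [hBE]
  rw [Finset.card_univ, Fintype.card_fin] at L1 E1
  rw [← hBL, ← hBE]
  set P := ∏ i, LamF (∑ j, γ i j * (m j : ℂ)) (k i) (t i) (∑ p, α i p * (s p : ℂ))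
  set P' := ∏ i, LamF (∑ j, γ i j * (m j : ℂ)) (k i) (t i) (∑ p, ω i p * (s p : ℂ))
  set Z := ∏ j, (∏ p, χ j p ^ s p) ^ m j
  set Z' := ∏ j, (∏ p, χ0 j p ^ s p) ^ m j
  have e : P * Z - P' * Z' = P * (Z - Z') + (P - P') * Z' := by ring
  rw [e]
  refine (norm_add_le _ _).trans ?_
  rw [norm_mul, norm_mul]
  have hlS : (0 : ℝ) ≤ l * S * ε := by positivity
  calc ‖P‖ * ‖Z - Z'‖ + ‖P - P'‖ * ‖Z'‖
      ≤ BL ^ w * (b * BE ^ b * (M * (l * S * ε))) + (w * BL ^ w * (K * (l * S * ε))) * BE ^ b := by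
        gcongr
    _ = BL ^ w * BE ^ b * ((w * K + b * M) * (l * S * ε)) := by ring

end

end Pool.Agent.L0h39.QA
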