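import Mathlib
import Pool.Agent.H301R2.TR.GenMain
import Pool.Agent.L0h39.QA.Det
import Pool.Agent.L0h39.QA.Pert

set_option autoImplicit false

/-! The auxiliary polynomial in the approximate situation. -/

namespace Pool.Agent.L0h39.QA

open Finset Matrix Pool.Agent.H301R2.TR

theorem entG_int' {F : Type*} [Field F] {d : ℕ} {w b l : ℕ}
    {γ : Fin w → Fin b → ℤ} {α : Fin w → Fin l → F} {χ : Fin b → Fin l → F}
    (hα : ∀ i p, IntD d 1 (α i p)) (hχ : ∀ j p, IntD d 1 (χ j p))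
    (K M S : ℕ) {k : Fin w → ℕ} {m : Fin b → ℕ} {t : Fin w → ℕ} {s : Fin l → ℕ}
    (hk : ∀ i, k i ≤ K) (hm : ∀ j, m j ≤ M) (hs : ∀ p, s p ≤ S) :
    IntD d (w * K + b * (l * (S * M))) (entG (fun i j => ((γ i j : ℤ) : F)) α χ k m t s) := by
  have hnat : ∀ n : ℕ, IntD d 0 (n : F) := fun n => IntD.of_int (isIntegral_natCast' n)
  have hint : ∀ n : ℤ, IntD d 0 (n : F) := fun n => IntD.of_int (by
    have := isIntegral_algebraMap (R := ℤ) (A := F) (x := n)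
    simpa using this)
  have h1 : IntD d (w * K) (∏ i, LamF (∑ j, ((γ i j : ℤ) : F) * (m j : F)) (k i) (t i)
      (∑ p, α i p * (s p : F))) := by
    have := IntD.prod (d := d) (a := K) Finset.univ
      (fun i => LamF (∑ j, ((γ i j : ℤ) : F) * (m j : F)) (k i) (t i) (∑ p, α i p * (s p : F))) ?_
    · simpa using this
    · intro i _
      have g1 : IntD d 0 (∑ j, ((γ i j : ℤ) : F) * (m j : F)) :=
        IntD.sum _ _ (fun j _ => ((hint (γ i j)).mul (hnat (m j))).mono (by omega))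
      have g2 : IntD d 1 (∑ p, α i p * (s p : F)) :=
        IntD.sum _ _ (fun p _ => (hα i p).mul (hnat (s p)))
      refine (g1.lamF g2 (k i) (t i)).mono ?_
      have := hk i
      omega
  have h2 : IntD d (b * (l * (S * M))) (∏ j, (∏ p, χ j p ^ s p) ^ m j) := by
    have := IntD.prod (d := d) (a := l * (S * M)) Finset.univ
      (fun j => (∏ p, χ j p ^ s p) ^ m j) ?_
    · simpa using this
    · intro j _
      have g1 : IntD d (l * S) (∏ p, χ j p ^ s p) := by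
        have := IntD.prod (d := d) (a := S) Finset.univ (fun p => χ j p ^ s p) (fun p _ =>
          ((hχ j p).pow (s p)).mono (by have := hs p; omega))
        simpa using this
      refine (g1.pow (m j)).mono ?_
      calc l * S * m j ≤ l * S * M := Nat.mul_le_mul_left _ (hm j)
        _ = _ := by ring
  exact h1.mul h2

/-- **Existence of an auxiliary polynomial with many zeros at points which are only close to the
points of the analytic subgroup.** -/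
theorem aux_exists {F : Type*} [Field F] [NumberField F] (φ : F →ₐ[ℚ] ℂ) {w b l r : ℕ}
    (γ : Fin w → Fin b → ℤ) (α : Fin w → Fin l → F) (χ : Fin b → Fin l → F)
    (x : Fin r → Fin b → ℂ) (y : Fin r → Fin l → ℂ) (ω : Fin w → Fin l → ℂ)
    (K M T S Q d : ℕ) (g R ε Cx : ℝ) (hd : 0 < d) (hg : 0 ≤ g) (hR : 1 ≤ R) (hε : 0 ≤ ε)
    (hM : 1 ≤ M) (hS : 1 ≤ S)
    (hγ : ∀ i j, ‖((γ i j : ℤ) : ℂ)‖ ≤ g)
    (hαd : ∀ i p, IntD d 1 (α i p)) (hχd : ∀ j p, IntD d 1 (χ j p))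
    (hαR : ∀ τ : F →ₐ[ℚ] ℂ, ∀ i p, ‖τ (α i p)‖ ≤ R) (hχR : ∀ τ : F →ₐ[ℚ] ℂ, ∀ j p, ‖τ (χ j p)‖ ≤ R)
    (hωR : ∀ i p, ‖ω i p‖ ≤ R)
    (hχ0R : ∀ j p, ‖Complex.exp (∑ ρ, x ρ j * y ρ p + ∑ i, ((γ i j : ℤ) : ℂ) * ω i p)‖ ≤ R)
    (hα : ∀ i p, ‖φ (α i p) - ω i p‖ ≤ ε)
    (hχ : ∀ j p, ‖φ (χ j p) -
      Complex.exp (∑ ρ, x ρ j * y ρ p + ∑ i, ((γ i j : ℤ) : ℂ) * ω i p)‖ ≤ ε)
    (hCx : 1 ≤ Cx) (hx : ∀ ρ j, ‖x ρ j‖ ≤ Cx) (hy : ∀ ρ p, ‖y ρ p‖ ≤ Cx)
    (hωC : ∀ i p, ‖ω i p‖ ≤ Cx) (hγC : ∀ i j, ‖((γ i j : ℤ) : ℂ)‖ ≤ Cx)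
    (hcount : 2 * Q ^ (r + w) ≤ (K + 1) ^ w * (M + 1) ^ b)
    (herr : Bd w b l g R K M T S * ((w * K + b * M) * (l * S * ε)) ≤ (1 / 2) ^ Q)
    (hlarge : (2 * (((K + 1) ^ w * (M + 1) ^ b : ℕ) : ℝ) *
      (((r + w : ℕ) + 2) * (2 * E1 (K + T) (((1 + b) * Cx) * ((1 + l) * Cx) * (M * S))) ^ (r + w))
      * ((d : ℝ) ^ (w * K + b * (l * (S * M)))) ^ (Module.finrank ℚ F)
      * ((((K + 1) ^ w * (M + 1) ^ b : ℕ) : ℝ) * Bd w b l g R K M T S) ^ (Module.finrank ℚ F)) ^ 2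
        < 2 ^ Q) :
    ∃ p : JG (fun _ : Fin w => K) b M → ℂ, p ≠ 0 ∧
      ∀ (t : Fin w → ℕ) (s : Fin l → ℕ), (∀ i, t i ≤ T) → (∀ q, s q ≤ S) →
        ∑ j, p j * entG (fun i j => ((γ i j : ℤ) : ℂ)) (fun i q => φ (α i q))
          (fun j q => φ (χ j q)) (fun i => (j.1 i : ℕ)) (fun i => (j.2 i : ℕ)) t s = 0 := by
  classical
  have hγφ : ∀ (τ : F →ₐ[ℚ] ℂ), (fun (i : Fin w) (j : Fin b) => τ ((γ i j : ℤ) : F)) =
      fun i j => ((γ i j : ℤ) : ℂ) := by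
    intro τ; funext i j; exact map_intCast τ _
  set C1 : ℝ := (1 + b) * Cx with hC1
  set C2 : ℝ := (1 + l) * Cx with hC2
  have hC1' : 1 ≤ C1 := by
    have : (0 : ℝ) ≤ b := Nat.cast_nonneg _
    rw [hC1]; nlinarith
  have hC2' : 1 ≤ C2 := by
    have : (0 : ℝ) ≤ l := Nat.cast_nonneg _
    rw [hC2]; nlinarith
  have hC12 : 1 ≤ C1 * C2 := one_le_mul_of_one_le_of_one_le hC1' hC2'
  have hcard : Fintype.card (JG (fun _ : Fin w => K) b M) = (K + 1) ^ w * (M + 1) ^ b := by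
    rw [card_JG]; simp
  by_contra hcon
  push Not at hcon
  obtain ⟨cc, hcc⟩ := exists_det_ne_zero (F := F) (J := JG (fun _ : Fin w => K) b M)
    (C := CG w l T S)
    (fun j cd => entG (fun i j => ((γ i j : ℤ) : F)) α χ (fun i => (j.1 i : ℕ))
      (fun i => (j.2 i : ℕ)) cd.1.1 cd.1.2) (by
      intro p hp
      by_contra hp0
      obtain ⟨t, s, ht, hs, hts⟩ := hcon (fun j => φ (p j)) (by
        intro h
        apply hp0
        funext j
        exact (map_eq_zero φ).mp (congrFun h j))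
      apply hts
      have h1 := hp ⟨(t, s), ht, hs⟩
      have h2 := congrArg φ h1
      rw [map_zero, map_sum] at h2
      rw [← h2]
      apply Finset.sum_congr rfl
      intro j _
      rw [map_mul]
      congr 1
      have h3 := (entG_map (φ : F →+* ℂ) (fun i j => ((γ i j : ℤ) : F)) α χ
        (fun i => (j.1 i : ℕ)) (fun i => (j.2 i : ℕ)) t s)
      refine Eq.trans ?_ h3.symm
      have h4 := hγφ φ
      change _ = entG (fun i j => φ ((γ i j : ℤ) : F)) _ _ _ _ _ _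
      rw [h4]
      rfl)
  apply hcc
  refine det_vanish' φ (L := Fin r ⊕ Fin w) (J := JG (fun _ : Fin w => K) b M)
    (fun j => Sum.elim (fun _ => 0) (fun i => (j.1 i : ℕ)))
    (fun j => Sum.elim (fun ρ => ∑ i, x ρ i * ((j.2 i : ℕ) : ℂ))
      (fun i => ∑ q, ((γ i q : ℤ) : ℂ) * ((j.2 q : ℕ) : ℂ)))
    (fun i => Sum.elim (fun _ => 0) (cc i).1.1)
    (fun i => Sum.elim (fun ρ => ∑ q, y ρ q * ((cc i).1.2 q : ℂ))
      (fun q => ∑ q', ω q q' * ((cc i).1.2 q' : ℂ)))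
    (K + T) Q (fun _ => C1 * M) (fun _ => C2 * S) ((C1 * C2) * (M * S))
    ?_ ?_ ?_ ?_ ?_ ?_ ?_ _ d (w * K + b * (l * (S * M))) hd
    (Bd w b l g R K M T S)
    ?_ ?_ ?_ ?_ ?_ ?_ ?_
  · intro _
    have : (1 : ℝ) ≤ M := by exact_mod_cast hM
    nlinarith
  · intro _
    have : (1 : ℝ) ≤ S := by exact_mod_cast hS
    nlinarith
  · intro _
    apply le_of_eq
    ring
  · intro j i
    have hM0 : (0 : ℝ) ≤ M := Nat.cast_nonneg _
    have hj : ∀ i, (j.2 i : ℕ) ≤ M := fun i => Nat.lt_succ_iff.mp (j.2 i).2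
    rcases i with ρ | i
    · refine (norm_natsum_le Cx M (x ρ) (fun i => (j.2 i : ℕ)) (hx ρ) hj).trans ?_
      rw [hC1]
      have : 0 ≤ Cx * (M : ℝ) := by positivity
      nlinarith
    · refine (norm_natsum_le Cx M (fun q => ((γ i q : ℤ) : ℂ)) (fun i => (j.2 i : ℕ))
        (hγC i) hj).trans ?_
      rw [hC1]
      have : 0 ≤ Cx * (M : ℝ) := by positivity
      nlinarith
  · intro i' i
    have hS0 : (0 : ℝ) ≤ S := Nat.cast_nonneg _
    have hj : ∀ q, (cc i').1.2 q ≤ S := (cc i').2.2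
    rcases i with ρ | i
    · refine (norm_natsum_le Cx S (y ρ) (cc i').1.2 (hy ρ) hj).trans ?_
      rw [hC2]
      have : 0 ≤ Cx * (S : ℝ) := by positivity
      nlinarith
    · refine (norm_natsum_le Cx S (ω i) (cc i').1.2 (hωC i) hj).trans ?_
      rw [hC2]
      have : 0 ≤ Cx * (S : ℝ) := by positivity
      nlinarith
  · intro j i' i
    rcases i with ρ | i
    · simp
    · have h1 : (j.1 i : ℕ) ≤ K := Nat.lt_succ_iff.mp (j.1 i).2
      have h2 : (cc i').1.1 i ≤ T := (cc i').2.1 i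
      exact Nat.add_le_add h1 h2
  · positivity
  · exact one_le_Bd w b l K M T S hg hR
  · intro j i'
    exact entG_int' hαd hχd K M S (fun i => Nat.lt_succ_iff.mp (j.1 i).2)
      (fun i => Nat.lt_succ_iff.mp (j.2 i).2) (cc i').2.2
  · intro τ j i'
    have e1 := entG_map (τ : F →+* ℂ) (fun i j => ((γ i j : ℤ) : F)) α χ (fun i => (j.1 i : ℕ))
      (fun i => (j.2 i : ℕ)) (cc i').1.1 (cc i').1.2
    have e1' : τ (entG (fun i j => ((γ i j : ℤ) : F)) α χ (fun i => (j.1 i : ℕ))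
      (fun i => (j.2 i : ℕ)) (cc i').1.1 (cc i').1.2) =
        entG (fun i j => ((γ i j : ℤ) : ℂ)) (fun i p => τ (α i p)) (fun i p => τ (χ i p))
          (fun i => (j.1 i : ℕ)) (fun i => (j.2 i : ℕ)) (cc i').1.1 (cc i').1.2 := by
      refine e1.trans ?_
      change entG (fun i j => τ ((γ i j : ℤ) : F)) _ _ _ _ _ _ = _
      rw [hγφ τ]
      rfl
    rw [e1']
    exact entG_norm' hg hR hγ (hαR τ) (hχR τ) K M T S
      (fun i => Nat.lt_succ_iff.mp (j.1 i).2)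
      (fun i => Nat.lt_succ_iff.mp (j.2 i).2) (cc i').2.1 (cc i').2.2
  · intro j i'
    have e1 := entG_map (φ : F →+* ℂ) (fun i j => ((γ i j : ℤ) : F)) α χ (fun i => (j.1 i : ℕ))
      (fun i => (j.2 i : ℕ)) (cc i').1.1 (cc i').1.2
    have e1' : φ (entG (fun i j => ((γ i j : ℤ) : F)) α χ (fun i => (j.1 i : ℕ))
      (fun i => (j.2 i : ℕ)) (cc i').1.1 (cc i').1.2) =
        entG (fun i j => ((γ i j : ℤ) : ℂ)) (fun i p => φ (α i p)) (fun i p => φ (χ i p))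
          (fun i => (j.1 i : ℕ)) (fun i => (j.2 i : ℕ)) (cc i').1.1 (cc i').1.2 := by
      refine e1.trans ?_
      change entG (fun i j => φ ((γ i j : ℤ) : F)) _ _ _ _ _ _ = _
      rw [hγφ φ]
      rfl
    have e2 := entG_exp (fun i j => ((γ i j : ℤ) : ℂ)) ω
      (fun j p => Complex.exp (∑ ρ, x ρ j * y ρ p + ∑ i, ((γ i j : ℤ) : ℂ) * ω i p))
      x y ω (fun _ _ => rfl) (fun i => (j.1 i : ℕ)) (fun i => (j.2 i : ℕ)) (cc i').1.1 (cc i').1.2
      (fun i => Or.inr fun _ => rfl)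
    have e3 := entG_sub (w := w) (b := b) (l := l) (γ := fun i j => ((γ i j : ℤ) : ℂ))
      (α := fun i p => φ (α i p)) (ω := ω) (χ := fun i p => φ (χ i p))
      (χ0 := fun j p => Complex.exp (∑ ρ, x ρ j * y ρ p + ∑ i, ((γ i j : ℤ) : ℂ) * ω i p))
      hg hR hε hγ (hαR φ) hωR hα (hχR φ) hχ0R hχ K M T S
      (k := fun i => (j.1 i : ℕ)) (m := fun i => (j.2 i : ℕ))
      (fun i => Nat.lt_succ_iff.mp (j.1 i).2)
      (fun i => Nat.lt_succ_iff.mp (j.2 i).2) (cc i').2.1 (cc i').2.2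
    rw [← e1', e2] at e3
    exact e3.trans herr
  · rw [hcard]; positivity
  · have hcardL : Fintype.card (Fin r ⊕ Fin w) = r + w := by simp
    rw [hcardL, hcard]
    exact hcount
  · have hcardL : Fintype.card (Fin r ⊕ Fin w) = r + w := by simp
    rw [hcard, hcardL]
    exact hlarge

end Pool.Agent.L0h39.QA
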