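import Mathlib

set_option autoImplicit false

/-! Case analysis for obstruction subgroups of `G_a^2 × G_m^2`. -/

namespace Pool.Agent.L0h39.QA

open Module

/-- A subgroup of `ℤ^l` on which a homomorphism to `ℤ^k` is injective has rank at most `k`. -/
theorem rank_le_of_inj {l k : ℕ} (G : AddSubgroup (Fin l → ℤ)) (f : (Fin l → ℤ) →+ (Fin k → ℤ))
    (hf : ∀ s ∈ G, f s = 0 → s = 0) : finrank ℤ G ≤ k := by
  let f' : G →+ (Fin k → ℤ) := f.comp G.subtype
  have hinj : Function.Injective f'.toIntLinearMap := by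
    intro x y hxy
    have h1 : f ((x : Fin l → ℤ) - y) = 0 := by
      rw [map_sub, sub_eq_zero]; exact hxy
    have h2 := hf _ (G.sub_mem x.2 y.2) h1
    apply Subtype.ext
    exact sub_eq_zero.mp h2
  have := LinearMap.finrank_le_finrank_of_injective hinj
  rwa [finrank_fin_fun] at this

/-- a subgroup of rank zero is trivial -/
theorem eq_bot_of_rank {l : ℕ} (G : AddSubgroup (Fin l → ℤ)) (h : finrank ℤ G = 0) : G = ⊥ := by
  have h0 : Module.Finite ℤ G :=
    Module.Finite.of_injective G.subtype.toIntLinearMap Subtype.val_injective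
  have hs : Subsingleton G := (Module.finrank_eq_zero_iff_of_free ℤ G).mp h
  rw [AddSubgroup.eq_bot_iff_forall]
  intro x hx
  have := @Subsingleton.elim _ hs ⟨x, hx⟩ 0
  exact congrArg Subtype.val this

theorem rank_le {l : ℕ} (G : AddSubgroup (Fin l → ℤ)) : finrank ℤ G ≤ l :=
  rank_le_of_inj G (AddMonoidHom.id _) fun _ _ h => h

/-- coordinate vector of one coordinate -/
def co1 {l : ℕ} (i : Fin l) : (Fin l → ℤ) →+ (Fin 1 → ℤ) where
  toFun s := ![s i]
  map_zero' := by funext j; fin_cases j; rfl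
  map_add' s t := by funext j; fin_cases j; rfl

theorem co1_eq {l : ℕ} {i : Fin l} {s : Fin l → ℤ} (h : co1 i s = 0) : s i = 0 := congrFun h 0

/-- two coordinates -/
def co2 {l : ℕ} (i j : Fin l) : (Fin l → ℤ) →+ (Fin 2 → ℤ) where
  toFun s := ![s i, s j]
  map_zero' := by funext j; fin_cases j <;> rfl
  map_add' s t := by funext j; fin_cases j <;> rfl

theorem co2_eq {l : ℕ} {i j : Fin l} {s : Fin l → ℤ} (h : co2 i j s = 0) : s i = 0 ∧ s j = 0 :=
  ⟨congrFun h 0, congrFun h 1⟩

/-- rank two subgroups contain two independent elements -/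
theorem exists_det {G : AddSubgroup (Fin 2 → ℤ)} (h : 2 ≤ finrank ℤ G) :
    ∃ m ∈ G, ∃ m' ∈ G, m 0 * m' 1 - m 1 * m' 0 ≠ 0 := by
  by_contra hcon
  push Not at hcon
  have hne : G ≠ ⊥ := by
    rintro rfl
    have : finrank ℤ (⊥ : AddSubgroup (Fin 2 → ℤ)) = 0 := by
      apply Module.finrank_zero_of_subsingleton
    omega
  obtain ⟨m, hm, hm0⟩ := G.bot_or_exists_ne_zero.resolve_left hne
  have hcases : m 0 ≠ 0 ∨ m 1 ≠ 0 := by
    by_contra hc
    push Not at hc
    apply hm0
    funext i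
    fin_cases i
    · exact hc.1
    · exact hc.2
  have hle : finrank ℤ G ≤ 1 := by
    rcases hcases with h0 | h1
    · refine rank_le_of_inj G (co1 0) ?_
      intro s hs hs0
      have h2 : s 0 = 0 := co1_eq hs0
      have h3 := hcon m hm s hs
      rw [h2, mul_zero, sub_zero] at h3
      have h4 : s 1 = 0 := (mul_eq_zero.mp h3).resolve_left h0
      funext i
      fin_cases i
      · exact h2
      · exact h4
    · refine rank_le_of_inj G (co1 1) ?_
      intro s hs hs0
      have h2 : s 1 = 0 := co1_eq hs0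
      have h3 := hcon m hm s hs
      rw [h2, mul_zero, zero_sub, neg_eq_zero] at h3
      have h4 : s 0 = 0 := (mul_eq_zero.mp h3).resolve_left h1
      funext i
      fin_cases i
      · exact h4
      · exact h2
  omega

/-- The case analysis. -/
theorem cases {a : ℕ} (ha : 2 ≤ a) (Af : Submodule ℂ (Fin 2 → ℂ)) (Rm : AddSubgroup (Fin 2 → ℤ))
    (W0 : Submodule ℂ (Fin 2 → ℂ)) (G0 : AddSubgroup (Fin 3 → ℤ))
    (h0 : ¬ (Af = ⊥ ∧ Rm = ⊥))
    (hW : ∀ c ∈ W0, (∀ a ∈ Af, a 0 * c 0 + a 1 * c 1 = 0) ∧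
      ∀ m ∈ Rm, (m 0 : ℂ) * c 0 + (m 1 : ℂ) * c 1 = 0)
    (hA : ∀ m ∈ Rm, (m 0 ≠ 0 ∨ m 1 ≠ 0) → (![(m 0 : ℂ), (m 1 : ℂ)] ∈ Af) → finrank ℤ G0 ≤ 1)
    (hB : Af = ⊤ → finrank ℤ G0 ≤ 1)
    (hC : ∀ v ∈ Af, v ≠ 0 → finrank ℤ G0 ≤ 2)
    (hD : Af = ⊤ → ∀ m ∈ Rm, ∀ m' ∈ Rm, m 0 * m' 1 - m 1 * m' 0 ≠ 0 → finrank ℤ G0 = 0)
    (hle : (2 - finrank ℂ W0) * (12 * a + 10) + (3 - finrank ℤ G0) * (4 * a + 5) ≤
      finrank ℂ Af * (11 * a + 11) + finrank ℤ Rm * (7 * a + 6)) : False := by
  -- facts on `W0`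
  have hW2 : finrank ℂ W0 ≤ 2 := by
    have := Submodule.finrank_le W0
    rwa [finrank_fin_fun] at this
  have hR2 : finrank ℤ Rm ≤ 2 := rank_le Rm
  have hA2 : finrank ℂ Af ≤ 2 := by
    have := Submodule.finrank_le Af
    rwa [finrank_fin_fun] at this
  have hG3 : finrank ℤ G0 ≤ 3 := rank_le G0
  -- two independent linear forms vanishing on `W0`
  have key2 : ∀ u v : Fin 2 → ℂ, (∀ c ∈ W0, u 0 * c 0 + u 1 * c 1 = 0) →
      (∀ c ∈ W0, v 0 * c 0 + v 1 * c 1 = 0) → u 0 * v 1 - u 1 * v 0 ≠ 0 → finrank ℂ W0 = 0 := by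
    intro u v hu hv huv
    have : W0 = ⊥ := by
      rw [Submodule.eq_bot_iff]
      intro c hc
      have e1 := hu c hc
      have e2 := hv c hc
      have e3 : (u 0 * v 1 - u 1 * v 0) * c 0 = 0 := by linear_combination v 1 * e1 - u 1 * e2
      have e4 : (u 0 * v 1 - u 1 * v 0) * c 1 = 0 := by linear_combination u 0 * e2 - v 0 * e1
      funext i
      fin_cases i
      · exact (mul_eq_zero.mp e3).resolve_left huv
      · exact (mul_eq_zero.mp e4).resolve_left huv
    rw [this, finrank_bot]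
  have key1 : ∀ u : Fin 2 → ℂ, (∀ c ∈ W0, u 0 * c 0 + u 1 * c 1 = 0) → u ≠ 0 →
      finrank ℂ W0 ≤ 1 := by
    intro u hu hu0
    by_contra hcon
    have h1 : finrank ℂ W0 = 2 := by omega
    have h2 : W0 = ⊤ := Submodule.eq_top_of_finrank_eq (by rw [h1, finrank_fin_fun])
    apply hu0
    have e1 := hu ![1, 0] (by rw [h2]; trivial)
    have e2 := hu ![0, 1] (by rw [h2]; trivial)
    funext i
    fin_cases i
    · simpa using e1
    · simpa using e2
  have hRne : ∀ m ∈ Rm, m ≠ 0 → (m 0 ≠ 0 ∨ m 1 ≠ 0) := by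
    intro m _ hm0
    by_contra hc
    push Not at hc
    apply hm0
    funext i
    fin_cases i
    · exact hc.1
    · exact hc.2
  have hne1 : ∀ m ∈ Rm, m ≠ 0 → finrank ℂ W0 ≤ 1 := by
    intro m hm hm0
    refine key1 ![(m 0 : ℂ), (m 1 : ℂ)] (fun c hc => by simpa using (hW c hc).2 m hm) ?_
    intro h
    rcases hRne m hm hm0 with h1 | h1
    · apply h1
      have := congrFun h 0
      simpa using this
    · apply h1
      have := congrFun h 1
      simpa using this
  have hne2 : ∀ v ∈ Af, v ≠ 0 → finrank ℂ W0 ≤ 1 := by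
    intro v hv hv0
    exact key1 v (fun c hc => (hW c hc).1 v hv) hv0
  have hR22 : 2 ≤ finrank ℤ Rm → finrank ℂ W0 = 0 := by
    intro h
    obtain ⟨m, hm, m', hm', hmm⟩ := exists_det h
    refine key2 ![(m 0 : ℂ), (m 1 : ℂ)] ![(m' 0 : ℂ), (m' 1 : ℂ)]
      (fun c hc => by simpa using (hW c hc).2 m hm)
      (fun c hc => by simpa using (hW c hc).2 m' hm') ?_
    simp only [Matrix.cons_val_zero, Matrix.cons_val_one]
    exact_mod_cast hmm
  have hAtop : finrank ℂ Af = 2 → Af = ⊤ := fun h =>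
    Submodule.eq_top_of_finrank_eq (by rw [h, finrank_fin_fun])
  have hA22 : Af = ⊤ → finrank ℂ W0 = 0 := by
    intro h
    refine key2 ![1, 0] ![0, 1] (fun c hc => (hW c hc).1 _ (by rw [h]; trivial))
      (fun c hc => (hW c hc).1 _ (by rw [h]; trivial)) ?_
    simp
  rcases Nat.eq_zero_or_pos (finrank ℂ Af) with hAf | hAf
  · -- `Af = ⊥`
    have hAbot : Af = ⊥ := Submodule.finrank_eq_zero.mp hAf
    have hRne' : Rm ≠ ⊥ := fun h => h0 ⟨hAbot, h⟩
    obtain ⟨m, hm, hm0⟩ := Rm.bot_or_exists_ne_zero.resolve_left hRne'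
    have hw := hne1 m hm hm0
    rcases Nat.lt_or_ge (finrank ℤ Rm) 2 with h2 | h2
    · have h3 : finrank ℤ Rm ≤ 1 := by omega
      have e1 : 1 * (12 * a + 10) ≤ (2 - finrank ℂ W0) * (12 * a + 10) :=
        Nat.mul_le_mul_right _ (by omega)
      have e2 : finrank ℤ Rm * (7 * a + 6) ≤ 1 * (7 * a + 6) := Nat.mul_le_mul_right _ h3
      rw [hAf] at hle
      omega
    · have e1 : 2 * (12 * a + 10) ≤ (2 - finrank ℂ W0) * (12 * a + 10) :=
        Nat.mul_le_mul_right _ (by rw [hR22 h2])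
      have e2 : finrank ℤ Rm * (7 * a + 6) ≤ 2 * (7 * a + 6) := Nat.mul_le_mul_right _ hR2
      rw [hAf] at hle
      omega
  have hAne : Af ≠ ⊥ := by
    intro h
    rw [h, finrank_bot] at hAf
    omega
  obtain ⟨v, hv, hv0⟩ := Af.exists_mem_ne_zero_of_ne_bot hAne
  have hw := hne2 v hv hv0
  have hg2 := hC v hv hv0
  rcases Nat.lt_or_ge (finrank ℂ Af) 2 with hA1 | hA1
  · have hA1' : finrank ℂ Af = 1 := by omega
    rcases Nat.eq_zero_or_pos (finrank ℤ Rm) with hRf | hRf
    · rw [hA1', hRf] at hle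
      have e1 : 1 * (12 * a + 10) ≤ (2 - finrank ℂ W0) * (12 * a + 10) :=
        Nat.mul_le_mul_right _ (by omega)
      omega
    rcases Nat.lt_or_ge (finrank ℤ Rm) 2 with h2 | h2
    · have hRf' : finrank ℤ Rm = 1 := by omega
      have hRne' : Rm ≠ ⊥ := by
        rintro rfl
        have : finrank ℤ (⊥ : AddSubgroup (Fin 2 → ℤ)) = 0 := by
          apply Module.finrank_zero_of_subsingleton
        omega
      obtain ⟨m, hm, hm0⟩ := Rm.bot_or_exists_ne_zero.resolve_left hRne'
      rw [hA1', hRf'] at hle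
      by_cases hmA : ![(m 0 : ℂ), (m 1 : ℂ)] ∈ Af
      · have hg := hA m hm (hRne m hm hm0) hmA
        have e1 : 1 * (12 * a + 10) ≤ (2 - finrank ℂ W0) * (12 * a + 10) :=
          Nat.mul_le_mul_right _ (by omega)
        have e2 : 2 * (4 * a + 5) ≤ (3 - finrank ℤ G0) * (4 * a + 5) :=
          Nat.mul_le_mul_right _ (by omega)
        omega
      · have hw0 : finrank ℂ W0 = 0 := by
          refine key2 v ![(m 0 : ℂ), (m 1 : ℂ)] (fun c hc => (hW c hc).1 v hv)
            (fun c hc => by simpa using (hW c hc).2 m hm) ?_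
          intro hdet
          apply hmA
          simp only [Matrix.cons_val_zero, Matrix.cons_val_one] at hdet
          -- `m` is a multiple of `v`
          have hvc : v 0 ≠ 0 ∨ v 1 ≠ 0 := by
            by_contra hc
            push Not at hc
            apply hv0
            funext i
            fin_cases i
            · exact hc.1
            · exact hc.2
          rcases hvc with hvc | hvc
          · have : ![(m 0 : ℂ), (m 1 : ℂ)] = ((m 0 : ℂ) / v 0) • v := by
              funext i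
              fin_cases i
              · simp [hvc]
              · change (m 1 : ℂ) = (m 0 : ℂ) / v 0 * v 1
                field_simp
                linear_combination hdet
            rw [this]
            exact Af.smul_mem _ hv
          · have : ![(m 0 : ℂ), (m 1 : ℂ)] = ((m 1 : ℂ) / v 1) • v := by
              funext i
              fin_cases i
              · change (m 0 : ℂ) = (m 1 : ℂ) / v 1 * v 0
                field_simp
                linear_combination -hdet
              · simp [hvc]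
            rw [this]
            exact Af.smul_mem _ hv
        rw [hw0] at hle
        omega
    · have hRf' : finrank ℤ Rm = 2 := by omega
      rw [hA1', hRf', hR22 h2] at hle
      have e2 : 1 * (4 * a + 5) ≤ (3 - finrank ℤ G0) * (4 * a + 5) :=
        Nat.mul_le_mul_right _ (by omega)
      omega
  · have hA2' : finrank ℂ Af = 2 := by omega
    have htop := hAtop hA2'
    have hg1 := hB htop
    rw [hA2', hA22 htop] at hle
    have e2 : 2 * (4 * a + 5) ≤ (3 - finrank ℤ G0) * (4 * a + 5) :=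
      Nat.mul_le_mul_right _ (by omega)
    rcases Nat.lt_or_ge (finrank ℤ Rm) 2 with h2 | h2
    · have h3 : finrank ℤ Rm * (7 * a + 6) ≤ 1 * (7 * a + 6) := Nat.mul_le_mul_right _ (by omega)
      omega
    · obtain ⟨m, hm, m', hm', hmm⟩ := exists_det h2
      have hg0 := hD htop m hm m' hm' hmm
      have hRf' : finrank ℤ Rm = 2 := by omega
      rw [hRf', hg0] at hle
      omega

end Pool.Agent.L0h39.QA
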