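import Mathlib
import Pool.Agent.H301R2.TR.LamR

set_option autoImplicit false

/-! Algebraic numbers of bounded degree and height, and the number fields they generate. -/

namespace Pool.Agent.L0h39.QA

open Polynomial Module Pool.Agent.H301R2.TR

/-- `z` is a root of a nonzero polynomial with integer coefficients, of degree at most `δ` and with
coefficients of absolute value at most `H`. -/
def AlgB (δ : ℕ) (H : ℝ) (z : ℂ) : Prop :=
  ∃ P : ℤ[X], P ≠ 0 ∧ P.natDegree ≤ δ ∧ (∀ k, |(P.coeff k : ℝ)| ≤ H) ∧ aeval z P = 0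

theorem root_bound {P : ℤ[X]} (hP : P ≠ 0) {H : ℝ} (hH : ∀ k, |(P.coeff k : ℝ)| ≤ H) {z : ℂ}
    (hz : aeval z P = 0) : ‖z‖ ≤ 1 + H := by
  have hH0 : 0 ≤ H := (abs_nonneg _).trans (hH 0)
  have hinj : Function.Injective (algebraMap ℤ ℂ) := (algebraMap ℤ ℂ).injective_int
  have hP' : P.map (algebraMap ℤ ℂ) ≠ 0 := by
    rwa [Ne, Polynomial.map_eq_zero_iff hinj]
  have hroot : (P.map (algebraMap ℤ ℂ)).IsRoot z := by
    rw [IsRoot.def, eval_map_algebraMap]; exact hz
  have h1 : ‖z‖ < (cauchyBound (P.map (algebraMap ℤ ℂ)) : ℝ) := by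
    exact_mod_cast hroot.norm_lt_cauchyBound hP'
  refine h1.le.trans ?_
  unfold cauchyBound
  rw [NNReal.coe_add, NNReal.coe_one, add_comm]
  apply add_le_add_right
  rw [NNReal.coe_div]
  have hlead : (1 : ℝ) ≤ ‖(P.map (algebraMap ℤ ℂ)).leadingCoeff‖ := by
    rw [leadingCoeff_map_of_injective hinj]
    have h2 : P.leadingCoeff ≠ 0 := leadingCoeff_ne_zero.mpr hP
    have h3 : (1 : ℝ) ≤ |(P.leadingCoeff : ℝ)| := by
      exact_mod_cast Int.one_le_abs h2
    simpa using h3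
  have hsup : (((Finset.range (P.map (algebraMap ℤ ℂ)).natDegree).sup
      (fun i => ‖(P.map (algebraMap ℤ ℂ)).coeff i‖₊) : NNReal) : ℝ) ≤ H := by
    have : (Finset.range (P.map (algebraMap ℤ ℂ)).natDegree).sup
      (fun i => ‖(P.map (algebraMap ℤ ℂ)).coeff i‖₊) ≤ H.toNNReal := by
      apply Finset.sup_le
      intro i _
      rw [← NNReal.coe_le_coe, Real.coe_toNNReal _ hH0, coe_nnnorm]
      have := hH i
      simpa using this
    have h2 := NNReal.coe_le_coe.mpr this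
    rwa [Real.coe_toNNReal _ hH0] at h2
  rw [coe_nnnorm]
  rw [div_le_iff₀ (by linarith)]
  nlinarith

theorem AlgB.one_le {δ : ℕ} {H : ℝ} {z : ℂ} (h : AlgB δ H z) : 1 ≤ H ∧ 1 ≤ δ := by
  obtain ⟨P, hP, hd, hH, hz⟩ := h
  refine ⟨?_, ?_⟩
  · have h2 : P.leadingCoeff ≠ 0 := leadingCoeff_ne_zero.mpr hP
    have h3 : (1 : ℝ) ≤ |(P.leadingCoeff : ℝ)| := by exact_mod_cast Int.one_le_abs h2
    exact h3.trans (hH _)
  · by_contra hcon
    have h0 : P.natDegree = 0 := by omega
    rw [natDegree_eq_zero] at h0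
    obtain ⟨c, rfl⟩ := h0
    rw [aeval_C] at hz
    apply hP
    have hinj : Function.Injective (algebraMap ℤ ℂ) := (algebraMap ℤ ℂ).injective_int
    have : c = 0 := hinj (by rw [hz, map_zero])
    rw [this, map_zero]

/-- the field generated by an algebraic number of bounded degree -/
theorem finrank_simple {δ : ℕ} {P : ℤ[X]} (hP : P ≠ 0) (hd : P.natDegree ≤ δ) {z : ℂ}
    (hz : aeval z P = 0) : FiniteDimensional ℚ (IntermediateField.adjoin ℚ {z}) ∧
      finrank ℚ (IntermediateField.adjoin ℚ {z}) ≤ δ := by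
  have hinj : Function.Injective (algebraMap ℤ ℚ) := (algebraMap ℤ ℚ).injective_int
  have hP' : P.map (algebraMap ℤ ℚ) ≠ 0 := by
    rwa [Ne, Polynomial.map_eq_zero_iff hinj]
  have hz' : aeval z (P.map (algebraMap ℤ ℚ)) = 0 := by
    rw [aeval_map_algebraMap]; exact hz
  have hint : IsIntegral ℚ z := (show IsAlgebraic ℚ z from ⟨_, hP', hz'⟩).isIntegral
  refine ⟨IntermediateField.adjoin.finiteDimensional hint, ?_⟩
  rw [IntermediateField.adjoin.finrank hint]
  refine (natDegree_le_of_dvd (minpoly.dvd ℚ z hz') hP').trans ?_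
  rw [natDegree_map_eq_of_injective hinj]
  exact hd

theorem exists_inter (δ : ℕ) (H : ℝ) : ∀ (k : ℕ) (z : Fin k → ℂ), (∀ i, AlgB δ H (z i)) →
    ∃ E : IntermediateField ℚ ℂ, FiniteDimensional ℚ E ∧ finrank ℚ E ≤ δ ^ k ∧ ∀ i, z i ∈ E := by
  intro k
  induction k with
  | zero =>
    intro z _
    refine ⟨⊥, inferInstance, ?_, fun i => i.elim0⟩
    rw [IntermediateField.finrank_bot, pow_zero]
  | succ k ih =>
    intro z hz
    obtain ⟨E, hE1, hE2, hE3⟩ := ih (fun i => z i.castSucc) (fun i => hz _)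
    obtain ⟨P, hP, hd, -, hzP⟩ := hz (Fin.last k)
    obtain ⟨h1, h2⟩ := finrank_simple hP hd hzP
    refine ⟨E ⊔ IntermediateField.adjoin ℚ {z (Fin.last k)}, inferInstance, ?_, ?_⟩
    · refine (IntermediateField.finrank_sup_le _ _).trans ?_
      rw [pow_succ]
      exact Nat.mul_le_mul hE2 h2
    · intro i
      refine Fin.lastCases ?_ (fun i => ?_) i
      · exact (le_sup_right : IntermediateField.adjoin ℚ {z (Fin.last k)} ≤
          E ⊔ IntermediateField.adjoin ℚ {z (Fin.last k)})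
          (IntermediateField.mem_adjoin_simple_self ℚ _)
      · exact (le_sup_left : E ≤ E ⊔ IntermediateField.adjoin ℚ {z (Fin.last k)}) (hE3 i)

/-- The number field generated by `i` and by finitely many algebraic numbers of bounded degree and
height. -/
theorem exists_field_bound (δ k : ℕ) (H : ℝ) (z : Fin k → ℂ) (hz : ∀ i, AlgB δ H (z i)) :
    ∃ (F : Type) (_ : Field F) (_ : NumberField F) (φ : F →ₐ[ℚ] ℂ) (I' : F) (z' : Fin k → F)
      (d : ℕ), φ I' = Complex.I ∧ I' ^ 2 = -1 ∧ (∀ i, φ (z' i) = z i) ∧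
      finrank ℚ F ≤ 2 * δ ^ k ∧ 0 < d ∧ (d : ℝ) ≤ H ^ k ∧ (∀ i, IntD d 1 (z' i)) ∧
      IntD d 1 I' ∧ (∀ τ : F →ₐ[ℚ] ℂ, ∀ i, ‖τ (z' i)‖ ≤ 1 + H) ∧ ∀ τ : F →ₐ[ℚ] ℂ, ‖τ I'‖ = 1 := by
  classical
  obtain ⟨E, hE1, hE2, hE3⟩ := exists_inter δ H k z hz
  choose P hP hd hH hzP using hz
  have hI : aeval Complex.I (X ^ 2 + 1 : ℤ[X]) = 0 := by simp
  have hI0 : (X ^ 2 + 1 : ℤ[X]) ≠ 0 := by
    intro h
    have := congrArg (fun Q => Polynomial.coeff Q 2) h
    simp [coeff_one] at this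
  have hId : (X ^ 2 + 1 : ℤ[X]).natDegree ≤ 2 := by
    refine (natDegree_add_le _ _).trans ?_
    simp
  obtain ⟨h1, h2⟩ := finrank_simple hI0 hId hI
  set F : IntermediateField ℚ ℂ := IntermediateField.adjoin ℚ {Complex.I} ⊔ E with hF
  have hfd : FiniteDimensional ℚ F := inferInstance
  have hnf : NumberField F := by
    refine @NumberField.mk _ _ ?_ ?_
    · infer_instance
    · convert hfd
  have hIF : Complex.I ∈ F := (le_sup_left : IntermediateField.adjoin ℚ {Complex.I} ≤ F)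
    (IntermediateField.mem_adjoin_simple_self ℚ _)
  have hzF : ∀ i, z i ∈ F := fun i => (le_sup_right : E ≤ F) (hE3 i)
  let φ : F →ₐ[ℚ] ℂ := F.val
  let z' : Fin k → F := fun i => ⟨z i, hzF i⟩
  have hφz : ∀ i, φ (z' i) = z i := fun i => rfl
  have hI2 : (⟨Complex.I, hIF⟩ : F) ^ 2 = -1 := by
    apply Subtype.ext
    change Complex.I ^ 2 = -1
    exact Complex.I_sq
  have haev : ∀ i, aeval (z' i) (P i) = 0 := by
    intro i
    have h3 : φ (aeval (z' i) (P i)) = 0 := by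
      rw [← hzP i, ← hφz i]
      exact (Polynomial.aeval_algHom_apply (φ.restrictScalars ℤ) (z' i) (P i)).symm
    exact (map_eq_zero φ).mp h3
  have hlc : ∀ i, (1 : ℤ) ≤ ((P i).leadingCoeff.natAbs : ℤ) := by
    intro i
    have := Int.natAbs_pos.mpr (leadingCoeff_ne_zero.mpr (hP i))
    exact_mod_cast this
  refine ⟨F, inferInstance, hnf, φ, ⟨Complex.I, hIF⟩, z', ∏ i, (P i).leadingCoeff.natAbs, rfl, hI2,
    hφz, ?_, ?_, ?_, ?_, ?_, ?_, ?_⟩
  · refine (IntermediateField.finrank_sup_le _ _).trans ?_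
    exact Nat.mul_le_mul h2 hE2
  · exact Finset.prod_pos fun i _ => Int.natAbs_pos.mpr (leadingCoeff_ne_zero.mpr (hP i))
  · push_cast
    have : ∀ i ∈ (Finset.univ : Finset (Fin k)), ((P i).leadingCoeff.natAbs : ℝ) ≤ H := by
      intro i _
      have h3 := hH i (P i).natDegree
      have h4 : ((P i).leadingCoeff.natAbs : ℝ) = |((P i).leadingCoeff : ℝ)| := by
        rw [Nat.cast_natAbs]; push_cast; rfl
      rw [h4]; exact h3
    refine (Finset.prod_le_prod (fun i _ => by positivity) this).trans ?_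
    simp
  · intro i
    have h3 : IsIntegral ℤ ((P i).leadingCoeff • z' i) := isIntegral_leadingCoeff_smul _ _ (haev i)
    unfold IntD
    rw [pow_one]
    have h4 : (((∏ j, (P j).leadingCoeff.natAbs : ℕ) : F) * z' i) =
        ((∏ j ∈ Finset.univ.erase i, (P j).leadingCoeff.natAbs : ℕ) : F) *
          (((P i).leadingCoeff.natAbs : F) * z' i) := by
      rw [← Finset.mul_prod_erase _ _ (Finset.mem_univ i)]
      push_cast
      ring
    rw [h4]
    apply (isIntegral_natCast' _).mul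
    rcases Int.natAbs_eq (P i).leadingCoeff with h5 | h5
    · rw [h5, zsmul_eq_mul] at h3
      simpa using h3
    · rw [h5, zsmul_eq_mul] at h3
      have := h3.neg
      simpa using this
  · have h3 : IsIntegral ℤ (⟨Complex.I, hIF⟩ : F) := by
      refine ⟨X ^ 2 + 1, ?_, ?_⟩
      · monicity!
      · rw [eval₂_add, eval₂_pow, eval₂_X, eval₂_one, hI2]; ring
    exact (IntD.of_int h3).mono (by omega)
  · intro τ i
    have h3 : aeval (τ (z' i)) (P i) = 0 := by
      have h4 := congrArg τ (haev i)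
      rw [map_zero] at h4
      rw [← h4]
      exact Polynomial.aeval_algHom_apply (τ.restrictScalars ℤ) (z' i) (P i)
    exact root_bound (hP i) (hH i) h3
  · intro τ
    have h3 : (τ ⟨Complex.I, hIF⟩) ^ 2 = -1 := by
      rw [← map_pow, hI2]; simp
    have h4 : ‖τ ⟨Complex.I, hIF⟩‖ ^ 2 = 1 := by rw [← norm_pow, h3]; simp
    have h5 : 0 ≤ ‖τ ⟨Complex.I, hIF⟩‖ := norm_nonneg _
    nlinarith

end Pool.Agent.L0h39.QA
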