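import Mathlib
import Pool.Agent.H301R2.TR.Growth
import Pool.Agent.H301R2.TR.GenMain
import Pool.Agent.L0h39.QA.Pert

set_option autoImplicit false

/-! The choice of the parameters. -/

namespace Pool.Agent.L0h39.QA

open Finset Pool.Agent.H301R2.TR

/-- the factor which does not depend on the heights -/
noncomputable def GG (w b l r κ μ σ τ c D0 : ℕ) (g Cx : ℝ) (n : ℕ) : ℝ :=
  (2 * (((n ^ κ + 1) ^ w * (n ^ μ + 1) ^ b : ℕ) : ℝ) *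
      (((r + w : ℕ) + 2) * (2 * E1 (n ^ κ + c * n ^ τ)
        (((1 + b) * Cx) * ((1 + l) * Cx) * (((n ^ μ : ℕ) : ℝ) * ((c * n ^ σ : ℕ) : ℝ)))) ^ (r + w))) *
    ((((n ^ κ + 1) ^ w * (n ^ μ + 1) ^ b : ℕ) : ℝ) *
      ((1 + b * g * ((n ^ μ : ℕ) : ℝ) + ((n ^ κ : ℕ) : ℝ)) ^ (c * n ^ τ) *
        (1 + l * ((c * n ^ σ : ℕ) : ℝ)) ^ (n ^ κ)) ^ w) ^ D0 *
    (((w * ((n ^ κ : ℕ) : ℝ) + b * ((n ^ μ : ℕ) : ℝ) + 1) * (l * ((c * n ^ σ : ℕ) : ℝ) + 1)) *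
     ((1 + b * g * ((n ^ μ : ℕ) : ℝ) + ((n ^ κ : ℕ) : ℝ)) ^ (c * n ^ τ) *
        (1 + l * ((c * n ^ σ : ℕ) : ℝ)) ^ (n ^ κ)) ^ w)

theorem good_GG (w b l r κ μ σ τ c D0 : ℕ) (g Cx : ℝ) (hg : 0 ≤ g) (hCx : 1 ≤ Cx)
    (hκ : μ + σ = κ) (hτ : κ ≤ τ) : Good τ (GG w b l r κ μ σ τ c D0 g Cx) := by
  have hN : Good τ (fun n : ℕ => (((n ^ κ + 1) ^ w * (n ^ μ + 1) ^ b : ℕ) : ℝ)) := by
    have h1 : Good τ (fun n : ℕ => ((2 : ℝ) * (n : ℝ) ^ κ) ^ w * ((2 : ℝ) * (n : ℝ) ^ μ) ^ b) :=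
      (((Good.const 2 (by norm_num)).mul (Good.natPow κ)).pow w).mul
        (((Good.const 2 (by norm_num)).mul (Good.natPow μ)).pow b)
    refine h1.mono (fun n hn => ?_) (fun n hn => ?_)
    · have : 1 ≤ (n ^ κ + 1) ^ w * (n ^ μ + 1) ^ b := Nat.succ_le_of_lt (by positivity)
      exact_mod_cast this
    · have hn1 : (1 : ℝ) ≤ n := by exact_mod_cast hn
      have a1 : (1 : ℝ) ≤ (n : ℝ) ^ κ := one_le_pow₀ hn1
      have a2 : (1 : ℝ) ≤ (n : ℝ) ^ μ := one_le_pow₀ hn1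
      push_cast
      have b1 : ((n : ℝ) ^ κ + 1) ^ w ≤ (2 * (n : ℝ) ^ κ) ^ w :=
        pow_le_pow_left₀ (by positivity) (by linarith) _
      have b2 : ((n : ℝ) ^ μ + 1) ^ b ≤ (2 * (n : ℝ) ^ μ) ^ b :=
        pow_le_pow_left₀ (by positivity) (by linarith) _
      exact mul_le_mul b1 b2 (by positivity) (by positivity)
  have hσμ : ∀ n : ℕ, ((n : ℝ) ^ μ) * (n : ℝ) ^ σ = (n : ℝ) ^ κ := by
    intro n; rw [← pow_add, hκ]
  have hCC : (1 : ℝ) ≤ ((1 + b) * Cx) * ((1 + l) * Cx) := by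
    have hb : (0 : ℝ) ≤ b := Nat.cast_nonneg _
    have hl : (0 : ℝ) ≤ l := Nat.cast_nonneg _
    exact one_le_mul_of_one_le_of_one_le (by nlinarith) (by nlinarith)
  have hE : Good τ (fun n : ℕ => E1 (n ^ κ + c * n ^ τ)
      (((1 + b) * Cx) * ((1 + l) * Cx) * (((n ^ μ : ℕ) : ℝ) * ((c * n ^ σ : ℕ) : ℝ)))) := by
    unfold E1
    apply Good.mul
    · refine Good.factorial (fun n => n ^ κ + c * n ^ τ) (1 + c) ?_ ?_
      · intro n hn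
        have : 1 ≤ n ^ κ := Nat.one_le_pow _ _ hn
        omega
      · intro n hn
        push_cast
        have hn1 : (1 : ℝ) ≤ n := by exact_mod_cast hn
        have a1 : (n : ℝ) ^ κ ≤ (n : ℝ) ^ τ := pow_le_pow_right₀ hn1 hτ
        linarith
    · refine Good.exp _ (6 * (((1 + b) * Cx) * ((1 + l) * Cx)) * c) ?_ ?_
      · intro n _; positivity
      · intro n hn
        have hn1 : (1 : ℝ) ≤ n := by exact_mod_cast hn
        have a1 : (n : ℝ) ^ κ ≤ (n : ℝ) ^ τ := pow_le_pow_right₀ hn1 hτ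
        push_cast
        have h0 : (0 : ℝ) ≤ 6 * (((1 + b) * Cx) * ((1 + l) * Cx)) * c := by positivity
        calc 6 * (((1 + b : ℝ) * Cx) * ((1 + l) * Cx) * ((n : ℝ) ^ μ * (c * (n : ℝ) ^ σ)))
            = 6 * (((1 + b) * Cx) * ((1 + l) * Cx)) * c * ((n : ℝ) ^ μ * (n : ℝ) ^ σ) := by ring
          _ = 6 * (((1 + b) * Cx) * ((1 + l) * Cx)) * c * (n : ℝ) ^ κ := by rw [hσμ]
          _ ≤ _ := mul_le_mul_of_nonneg_left a1 h0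
  have hB1 : Good τ (fun n : ℕ => (1 + b * g * ((n ^ μ : ℕ) : ℝ) + ((n ^ κ : ℕ) : ℝ)) ^
      (c * n ^ τ)) := by
    refine Good.powVar (f := fun n : ℕ => (1 + b * g * ((n ^ μ : ℕ) : ℝ) + ((n ^ κ : ℕ) : ℝ))) ?_
      (fun n => c * n ^ τ) c ?_
    · have h1 : Good 0 (fun n : ℕ => (2 + b * g : ℝ) * (n : ℝ) ^ κ) :=
        (Good.const (2 + b * g) (by
          have : (0 : ℝ) ≤ b * g := by positivity
          linarith)).mul (Good.natPow κ)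
      refine h1.mono (fun n hn => ?_) (fun n hn => ?_)
      · have : (0 : ℝ) ≤ b * g * ((n ^ μ : ℕ) : ℝ) := by positivity
        have : (0 : ℝ) ≤ ((n ^ κ : ℕ) : ℝ) := by positivity
        linarith
      · have hn1 : (1 : ℝ) ≤ n := by exact_mod_cast hn
        have a1 : (n : ℝ) ^ μ ≤ (n : ℝ) ^ κ := pow_le_pow_right₀ hn1 (by omega)
        have a2 : (1 : ℝ) ≤ (n : ℝ) ^ κ := one_le_pow₀ hn1
        have a3 : b * g * (n : ℝ) ^ μ ≤ b * g * (n : ℝ) ^ κ :=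
          mul_le_mul_of_nonneg_left a1 (by positivity)
        push_cast
        nlinarith
    · intro n _
      push_cast
      apply le_of_eq; ring
  have hB2 : Good τ (fun n : ℕ => (1 + l * ((c * n ^ σ : ℕ) : ℝ)) ^ (n ^ κ)) := by
    refine Good.powVar (f := fun n : ℕ => (1 + l * ((c * n ^ σ : ℕ) : ℝ))) ?_
      (fun n => n ^ κ) 1 ?_
    · have h1 : Good 0 (fun n : ℕ => (1 + l * c : ℝ) * (n : ℝ) ^ σ) :=
        (Good.const (1 + l * c) (by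
          have : (0 : ℝ) ≤ l * c := by positivity
          linarith)).mul (Good.natPow σ)
      refine h1.mono (fun n hn => ?_) (fun n hn => ?_)
      · have : (0 : ℝ) ≤ l * ((c * n ^ σ : ℕ) : ℝ) := by positivity
        linarith
      · have hn1 : (1 : ℝ) ≤ n := by exact_mod_cast hn
        have a1 : (1 : ℝ) ≤ (n : ℝ) ^ σ := one_le_pow₀ hn1
        push_cast
        nlinarith
    · intro n hn
      have hn1 : (1 : ℝ) ≤ n := by exact_mod_cast hn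
      have a1 : (n : ℝ) ^ κ ≤ (n : ℝ) ^ τ := pow_le_pow_right₀ hn1 hτ
      push_cast
      linarith
  have hB3 : Good τ (fun n : ℕ => ((w * ((n ^ κ : ℕ) : ℝ) + b * ((n ^ μ : ℕ) : ℝ) + 1) *
      (l * ((c * n ^ σ : ℕ) : ℝ) + 1))) := by
    apply Good.mul
    · have h1 : Good τ (fun n : ℕ => (w + b + 1 : ℝ) * (n : ℝ) ^ κ) :=
        (Good.const (w + b + 1 : ℝ) (by
          have : (0 : ℝ) ≤ w := Nat.cast_nonneg _
          have : (0 : ℝ) ≤ b := Nat.cast_nonneg _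
          linarith)).mul (Good.natPow κ)
      refine h1.mono (fun n hn => ?_) (fun n hn => ?_)
      · have h0 : (0 : ℝ) ≤ w * ((n ^ κ : ℕ) : ℝ) + b * ((n ^ μ : ℕ) : ℝ) := by positivity
        linarith
      · have hn1 : (1 : ℝ) ≤ n := by exact_mod_cast hn
        have a1 : (n : ℝ) ^ μ ≤ (n : ℝ) ^ κ := pow_le_pow_right₀ hn1 (by omega)
        have a2 : (1 : ℝ) ≤ (n : ℝ) ^ κ := one_le_pow₀ hn1
        have hb : (0 : ℝ) ≤ b := Nat.cast_nonneg _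
        push_cast
        nlinarith
    · have h1 : Good τ (fun n : ℕ => (l * c + 1 : ℝ) * (n : ℝ) ^ σ) :=
        (Good.const (l * c + 1 : ℝ) (by
          have : (0 : ℝ) ≤ l * c := by positivity
          linarith)).mul (Good.natPow σ)
      refine h1.mono (fun n hn => ?_) (fun n hn => ?_)
      · have h0 : (0 : ℝ) ≤ l * ((c * n ^ σ : ℕ) : ℝ) := by positivity
        linarith
      · have hn1 : (1 : ℝ) ≤ n := by exact_mod_cast hn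
        have a2 : (1 : ℝ) ≤ (n : ℝ) ^ σ := one_le_pow₀ hn1
        push_cast
        nlinarith
  have hrw : (1 : ℝ) ≤ ((r + w : ℕ) : ℝ) + 2 := by
    have : (0 : ℝ) ≤ ((r + w : ℕ) : ℝ) := Nat.cast_nonneg _
    linarith
  exact ((((Good.const (u := τ) 2 (by norm_num)).mul hN).mul
    ((Good.const (u := τ) (((r + w : ℕ) : ℝ) + 2) hrw).mul
      (((Good.const (u := τ) 2 (by norm_num)).mul hE).pow (r + w)))).mul
    ((hN.mul ((hB1.mul hB2).pow w)).pow D0)).mul (hB3.mul ((hB1.mul hB2).pow w))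

/-- the height dependent part of `Bd` -/
theorem Bd_le (w b l : ℕ) (g R : ℝ) (K M T S : ℕ) (hg : 0 ≤ g) (hR : 1 ≤ R) :
    Bd w b l g R K M T S ≤ ((1 + b * g * M + K) ^ T * (1 + l * S) ^ K) ^ w *
      R ^ (w * K + b * (l * (S * M))) := by
  unfold Bd
  have h1 : (1 + l * R * S : ℝ) ≤ (1 + l * S) * R := by
    have : (0 : ℝ) ≤ l * S := by positivity
    nlinarith
  calc ((1 + b * g * M + K : ℝ) ^ T * (1 + l * R * S) ^ K) ^ w * (R ^ (l * (S * M))) ^ b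
      ≤ ((1 + b * g * M + K : ℝ) ^ T * ((1 + l * S) * R) ^ K) ^ w * (R ^ (l * (S * M))) ^ b := by
        gcongr
    _ = _ := by
        rw [mul_pow (1 + (l : ℝ) * S), ← mul_assoc, mul_pow _ (R ^ K), ← pow_mul, ← pow_mul,
          pow_add, mul_comm K w, mul_comm (l * (S * M)) b]
        ring

theorem le_sq_of_one_le {x : ℝ} (h : 1 ≤ x) : x ≤ x ^ 2 := by nlinarith

/-- **The growth estimate.** -/
theorem growth (w b l r κ μ σ τ a c D0 : ℕ) (g Cx : ℝ) (hg : 0 ≤ g) (hCx : 1 ≤ Cx)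
    (hκ : μ + σ = κ) (hτ : τ + 1 = κ + a) (ha : 1 ≤ a) :
    ∃ C1 : ℝ, 0 < C1 ∧ ∃ n0 : ℕ, ∀ n ≥ n0, 1 ≤ n → ∀ (Λ R ε : ℝ) (d D : ℕ), C1 * Λ ≤ (n : ℝ) ^ a →
      0 ≤ Λ → 1 ≤ R → R ≤ Real.exp Λ → 1 ≤ d → (d : ℝ) ≤ Real.exp Λ → D ≤ D0 →
      0 ≤ ε → ε ≤ (1 / 4) ^ (n ^ (κ + a)) →
      (Bd w b l g R (n ^ κ) (n ^ μ) (c * n ^ τ) (c * n ^ σ) *
        ((w * ((n ^ κ : ℕ) : ℝ) + b * ((n ^ μ : ℕ) : ℝ)) * (l * ((c * n ^ σ : ℕ) : ℝ) * ε)) ≤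
          (1 / 2) ^ (n ^ (κ + a))) ∧
      (2 * (((n ^ κ + 1) ^ w * (n ^ μ + 1) ^ b : ℕ) : ℝ) *
      (((r + w : ℕ) + 2) * (2 * E1 (n ^ κ + c * n ^ τ)
        (((1 + b) * Cx) * ((1 + l) * Cx) * (((n ^ μ : ℕ) : ℝ) * ((c * n ^ σ : ℕ) : ℝ)))) ^ (r + w))
      * ((d : ℝ) ^ (w * n ^ κ + b * (l * ((c * n ^ σ) * n ^ μ)))) ^ D
      * ((((n ^ κ + 1) ^ w * (n ^ μ + 1) ^ b : ℕ) : ℝ) *
        Bd w b l g R (n ^ κ) (n ^ μ) (c * n ^ τ) (c * n ^ σ)) ^ D) ^ 2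
        < 2 ^ (n ^ (κ + a)) := by
  obtain ⟨e, he⟩ : ∃ e : ℕ, e = w + b * l * c := ⟨_, rfl⟩
  have hG := good_GG w b l r κ μ σ τ c D0 g Cx hg hCx hκ (by omega)
  obtain ⟨n0, hn0⟩ := (hG.pow 2).eventually_lt
  obtain ⟨C2, -, hC2'⟩ := hG
  refine ⟨16 * (e * (D0 + 1)) + 1, by positivity, n0, ?_⟩
  intro n hn hn1 Λ R ε d D hΛ hΛ0 hR1 hR hd1 hd hD hε0 hε
  have hlt := hn0 n hn hn1
  rw [hτ] at hlt
  have hG1 := (hC2' n hn1).1
  obtain ⟨Q, hQ⟩ : ∃ Q, Q = n ^ (κ + a) := ⟨_, rfl⟩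
  rw [← hQ] at hlt hε ⊢
  -- exponents
  have hexp : w * n ^ κ + b * (l * ((c * n ^ σ) * n ^ μ)) = e * n ^ κ := by
    rw [he, ← hκ, pow_add]; ring
  set Ex : ℝ := Real.exp (Λ * (e * (D0 + 1)) * (n : ℝ) ^ κ) with hEx
  have hEx1 : 1 ≤ Ex := by
    rw [hEx]; exact Real.one_le_exp (by positivity)
  have hEx4 : Ex ^ 8 ≤ 2 ^ Q := by
    have h2 : (2 : ℝ) ^ Q = Real.exp (Real.log 2 * (n : ℝ) ^ (κ + a)) := by
      rw [Real.exp_mul, Real.exp_log (by norm_num)]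
      have : ((n : ℝ) ^ (κ + a)) = ((Q : ℕ) : ℝ) := by rw [hQ]; push_cast; rfl
      rw [this, Real.rpow_natCast]
    rw [h2, hEx, ← Real.exp_nat_mul]
    apply Real.exp_le_exp.mpr
    have h6 : (1 / 2 : ℝ) < Real.log 2 := by have := Real.log_two_gt_d9; linarith
    have hnκ : (0 : ℝ) ≤ (n : ℝ) ^ κ := by positivity
    have hna : (0 : ℝ) ≤ (n : ℝ) ^ a := by positivity
    have h7 : 16 * (e * (D0 + 1)) * Λ ≤ (n : ℝ) ^ a := by linarith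
    push_cast
    calc (8 : ℝ) * (Λ * (e * (D0 + 1)) * (n : ℝ) ^ κ)
        = (1 / 2) * (16 * (e * (D0 + 1)) * Λ) * (n : ℝ) ^ κ := by ring
      _ ≤ (1 / 2) * (n : ℝ) ^ a * (n : ℝ) ^ κ := by gcongr
      _ = (1 / 2) * (n : ℝ) ^ (κ + a) := by rw [pow_add]; ring
      _ ≤ _ := by gcongr
  -- the product
  have hX : (GG w b l r κ μ σ τ c D0 g Cx n * Ex ^ 2) ^ 2 < 2 ^ Q := by
    have h1 : ((GG w b l r κ μ σ τ c D0 g Cx n * Ex ^ 2) ^ 2) ^ 2 < ((2 : ℝ) ^ Q) ^ 2 := by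
      calc ((GG w b l r κ μ σ τ c D0 g Cx n * Ex ^ 2) ^ 2) ^ 2
          = (GG w b l r κ μ σ τ c D0 g Cx n ^ 2) ^ 2 * Ex ^ 8 := by ring
        _ < 2 ^ Q * 2 ^ Q := by
            apply mul_lt_mul hlt hEx4 (by positivity) (by positivity)
        _ = _ := by ring
    exact lt_of_pow_lt_pow_left₀ 2 (by positivity) h1
  obtain ⟨JJ, hJJ⟩ : ∃ J : ℝ, J = (((n ^ κ + 1) ^ w * (n ^ μ + 1) ^ b : ℕ) : ℝ) := ⟨_, rfl⟩
  obtain ⟨EE, hEE⟩ : ∃ E : ℝ, E = (((r + w : ℕ) + 2) * (2 * E1 (n ^ κ + c * n ^ τ)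
        (((1 + b) * Cx) * ((1 + l) * Cx) * (((n ^ μ : ℕ) : ℝ) * ((c * n ^ σ : ℕ) : ℝ)))) ^ (r + w)) :=
    ⟨_, rfl⟩
  obtain ⟨BB, hBB⟩ : ∃ B : ℝ, B = ((1 + b * g * ((n ^ μ : ℕ) : ℝ) + ((n ^ κ : ℕ) : ℝ)) ^
      (c * n ^ τ) * (1 + l * ((c * n ^ σ : ℕ) : ℝ)) ^ (n ^ κ)) ^ w := ⟨_, rfl⟩
  obtain ⟨FF, hFF⟩ : ∃ F : ℝ, F = ((w * ((n ^ κ : ℕ) : ℝ) + b * ((n ^ μ : ℕ) : ℝ) + 1) *
      (l * ((c * n ^ σ : ℕ) : ℝ) + 1)) := ⟨_, rfl⟩
  have hGG : GG w b l r κ μ σ τ c D0 g Cx n = (2 * JJ * EE) * (JJ * BB) ^ D0 * (FF * BB) := by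
    unfold GG; rw [hJJ, hEE, hBB, hFF]
  have hJ1 : 1 ≤ JJ := by
    rw [hJJ]
    have : 1 ≤ (n ^ κ + 1) ^ w * (n ^ μ + 1) ^ b := Nat.succ_le_of_lt (by positivity)
    exact_mod_cast this
  have hE1 : 1 ≤ EE := by
    rw [hEE]
    have h0 : 1 ≤ E1 (n ^ κ + c * n ^ τ)
        (((1 + b) * Cx) * ((1 + l) * Cx) * (((n ^ μ : ℕ) : ℝ) * ((c * n ^ σ : ℕ) : ℝ))) :=
      E1_one_le _ _ (by positivity)
    have h1 : (1 : ℝ) ≤ (2 * E1 (n ^ κ + c * n ^ τ)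
        (((1 + b) * Cx) * ((1 + l) * Cx) * (((n ^ μ : ℕ) : ℝ) * ((c * n ^ σ : ℕ) : ℝ)))) ^ (r + w) :=
      one_le_pow₀ (by linarith)
    have h2 : (0 : ℝ) ≤ ((r + w : ℕ) : ℝ) := Nat.cast_nonneg _
    nlinarith
  have hB1 : 1 ≤ BB := by
    rw [hBB]
    apply one_le_pow₀
    apply one_le_mul_of_one_le_of_one_le
    · apply one_le_pow₀
      have : (0 : ℝ) ≤ b * g * ((n ^ μ : ℕ) : ℝ) := by positivity
      have : (0 : ℝ) ≤ ((n ^ κ : ℕ) : ℝ) := by positivity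
      linarith
    · apply one_le_pow₀
      have : (0 : ℝ) ≤ l * ((c * n ^ σ : ℕ) : ℝ) := by positivity
      linarith
  have hF1 : 1 ≤ FF := by
    rw [hFF]
    apply one_le_mul_of_one_le_of_one_le
    · have : (0 : ℝ) ≤ w * ((n ^ κ : ℕ) : ℝ) + b * ((n ^ μ : ℕ) : ℝ) := by positivity
      linarith
    · have : (0 : ℝ) ≤ l * ((c * n ^ σ : ℕ) : ℝ) := by positivity
      linarith
  have hc1 : 1 ≤ (2 * JJ * EE) * (JJ * BB) ^ D0 := by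
    apply one_le_mul_of_one_le_of_one_le
    · have := one_le_mul_of_one_le_of_one_le hJ1 hE1
      linarith
    · exact one_le_pow₀ (one_le_mul_of_one_le_of_one_le hJ1 hB1)
  rw [hGG] at hX
  have hBd := Bd_le w b l g R (n ^ κ) (n ^ μ) (c * n ^ τ) (c * n ^ σ) hg hR1
  rw [hexp] at hBd
  have hBd0 := one_le_Bd w b l (n ^ κ) (n ^ μ) (c * n ^ τ) (c * n ^ σ) hg hR1
  rw [← hBB] at hBd
  obtain ⟨BD, hBD⟩ : ∃ B : ℝ, B = Bd w b l g R (n ^ κ) (n ^ μ) (c * n ^ τ) (c * n ^ σ) := ⟨_, rfl⟩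
  rw [← hBD] at hBd hBd0 ⊢
  -- powers of `R` and `d`
  have hpow : ∀ z : ℝ, 0 ≤ z → z ≤ Real.exp Λ → ∀ D' : ℕ, D' ≤ D0 + 1 →
      (z ^ (e * n ^ κ)) ^ D' ≤ Ex := by
    intro z hz0 hz D' hD'
    have h1 : (z ^ (e * n ^ κ)) ^ D' ≤ (Real.exp Λ ^ (e * n ^ κ)) ^ D' := by gcongr
    refine h1.trans ?_
    rw [← pow_mul, ← Real.exp_nat_mul, hEx]
    apply Real.exp_le_exp.mpr
    push_cast
    have h2 : (D' : ℝ) ≤ D0 + 1 := by exact_mod_cast hD'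
    have h3 : (0 : ℝ) ≤ (e : ℝ) * (n : ℝ) ^ κ * Λ := by positivity
    calc (e : ℝ) * (n : ℝ) ^ κ * D' * Λ = ((e : ℝ) * (n : ℝ) ^ κ * Λ) * D' := by ring
      _ ≤ ((e : ℝ) * (n : ℝ) ^ κ * Λ) * (D0 + 1) := mul_le_mul_of_nonneg_left h2 h3
      _ = _ := by ring
  have hR0 : 0 ≤ R := by linarith
  have hRE : R ^ (e * n ^ κ) ≤ Ex := by
    have := hpow R hR0 hR 1 (by omega)
    simpa using this
  refine ⟨?_, ?_⟩
  · -- error
    have h1 : BD * ((w * ((n ^ κ : ℕ) : ℝ) + b * ((n ^ μ : ℕ) : ℝ)) * (l * ((c * n ^ σ : ℕ) : ℝ)))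
        ≤ 2 ^ Q := by
      have h2 : (w * ((n ^ κ : ℕ) : ℝ) + b * ((n ^ μ : ℕ) : ℝ)) * (l * ((c * n ^ σ : ℕ) : ℝ)) ≤ FF := by
        rw [hFF]
        have a1 : (0 : ℝ) ≤ w * ((n ^ κ : ℕ) : ℝ) + b * ((n ^ μ : ℕ) : ℝ) := by positivity
        have a2 : (0 : ℝ) ≤ l * ((c * n ^ σ : ℕ) : ℝ) := by positivity
        exact mul_le_mul (by linarith) (by linarith) a2 (by linarith)
      have h3 : BD * ((w * ((n ^ κ : ℕ) : ℝ) + b * ((n ^ μ : ℕ) : ℝ)) *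
          (l * ((c * n ^ σ : ℕ) : ℝ))) ≤ (BB * Ex) * FF := by
        apply mul_le_mul (hBd.trans (mul_le_mul_of_nonneg_left hRE (by linarith))) h2
          (by positivity) (by positivity)
      have h4 : (BB * Ex) * FF ≤ (2 * JJ * EE) * (JJ * BB) ^ D0 * (FF * BB) * Ex ^ 2 := by
        have c1 : 1 ≤ (2 * JJ * EE) * (JJ * BB) ^ D0 := hc1
        have c2 : Ex ≤ Ex ^ 2 := le_sq_of_one_le hEx1
        calc (BB * Ex) * FF = 1 * (FF * BB) * Ex := by ring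
          _ ≤ ((2 * JJ * EE) * (JJ * BB) ^ D0) * (FF * BB) * Ex ^ 2 := by
              gcongr
      have h5 : 1 ≤ (2 * JJ * EE) * (JJ * BB) ^ D0 * (FF * BB) * Ex ^ 2 := by
        have c1 : 1 ≤ (2 * JJ * EE) * (JJ * BB) ^ D0 := hc1
        exact one_le_mul_of_one_le_of_one_le (one_le_mul_of_one_le_of_one_le c1
          (one_le_mul_of_one_le_of_one_le hF1 hB1)) (one_le_pow₀ hEx1)
      have h6 : (2 * JJ * EE) * (JJ * BB) ^ D0 * (FF * BB) * Ex ^ 2 ≤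
          ((2 * JJ * EE) * (JJ * BB) ^ D0 * (FF * BB) * Ex ^ 2) ^ 2 := le_sq_of_one_le h5
      exact h3.trans (h4.trans (h6.trans hX.le))
    have hε' : ε ≤ (1 / 2) ^ Q * (1 / 2) ^ Q := by
      rw [← mul_pow]
      refine hε.trans (le_of_eq ?_)
      norm_num
    have h12 : (0 : ℝ) < (1 / 2) ^ Q := by positivity
    have h13 : (2 : ℝ) ^ Q * (1 / 2) ^ Q = 1 := by rw [← mul_pow]; norm_num
    calc BD * ((w * ((n ^ κ : ℕ) : ℝ) + b * ((n ^ μ : ℕ) : ℝ)) * (l * ((c * n ^ σ : ℕ) : ℝ) * ε))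
        = (BD * ((w * ((n ^ κ : ℕ) : ℝ) + b * ((n ^ μ : ℕ) : ℝ)) *
            (l * ((c * n ^ σ : ℕ) : ℝ)))) * ε := by ring
      _ ≤ 2 ^ Q * ((1 / 2) ^ Q * (1 / 2) ^ Q) := by
          apply mul_le_mul h1 hε' hε0 (by positivity)
      _ = (1 / 2) ^ Q := by rw [← mul_assoc, h13, one_mul]
  · rw [hexp, ← hJJ, ← hEE]
    refine lt_of_le_of_lt ?_ hX
    apply pow_le_pow_left₀ (by positivity)
    have hdE : ((d : ℝ) ^ (e * n ^ κ)) ^ D ≤ Ex :=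
      hpow d (by positivity) hd D (by omega)
    have hBE : (JJ * BD) ^ D ≤ (JJ * BB) ^ D0 * Ex := by
      calc (JJ * BD) ^ D ≤ (JJ * (BB * R ^ (e * n ^ κ))) ^ D := by
            apply pow_le_pow_left₀ (by positivity)
            exact mul_le_mul_of_nonneg_left hBd (by linarith)
        _ = (JJ * BB) ^ D * (R ^ (e * n ^ κ)) ^ D := by rw [← mul_assoc, mul_pow]
        _ ≤ (JJ * BB) ^ D0 * Ex := by
            apply mul_le_mul (pow_le_pow_right₀ (one_le_mul_of_one_le_of_one_le hJ1 hB1) hD)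
              (hpow R hR0 hR D (by omega)) (by positivity) (by positivity)
    have hFB : 1 ≤ FF * BB := one_le_mul_of_one_le_of_one_le hF1 hB1
    calc 2 * JJ * EE * ((d : ℝ) ^ (e * n ^ κ)) ^ D * (JJ * BD) ^ D
        ≤ 2 * JJ * EE * Ex * ((JJ * BB) ^ D0 * Ex) := by gcongr
      _ = (2 * JJ * EE) * (JJ * BB) ^ D0 * 1 * Ex ^ 2 := by ring
      _ ≤ (2 * JJ * EE) * (JJ * BB) ^ D0 * (FF * BB) * Ex ^ 2 := by gcongr

end Pool.Agent.L0h39.QA
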