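import Mathlib
import Pool.Agent.H335R2.Obs.Final
import Pool.Agent.L0h39.QA.Aux1
import Pool.Agent.L0h39.QA.Grow

set_option autoImplicit false

/-! The obstruction theorem for points which are only close to the points of an analytic subgroup. -/

namespace Pool.Agent.L0h39.QA

open Finset Module Pool.Agent.H301R2.TR Pool.Agent.H335R2.Obs

theorem arith_exp {C n e1 e2 : ℕ} (hn : C < n) (h : n ^ e1 ≤ C * n ^ e2) : e1 ≤ e2 := by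
  by_contra hcon
  have h1 : n ^ (e2 + 1) ≤ n ^ e1 := Nat.pow_le_pow_right (by omega) (by omega)
  have hpos : 0 < n ^ e2 := Nat.pow_pos (by omega)
  have h2 : n * n ^ e2 ≤ C * n ^ e2 := by
    calc n * n ^ e2 = n ^ (e2 + 1) := by rw [pow_succ]; ring
      _ ≤ _ := h1.trans h
  have := Nat.le_of_mul_le_mul_right h2 hpos
  omega

/-- **Obstruction theorem, approximate version.** -/
theorem approx_obstruction {w b l r : ℕ} (γ : Fin w → Fin b → ℤ) (x : Fin r → Fin b → ℂ)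
    (y : Fin r → Fin l → ℂ) (ω : Fin w → Fin l → ℂ) (κ μ σ τ a D0 : ℕ) (hκ : μ + σ = κ)
    (hτ : τ + 1 = κ + a) (ha : 1 ≤ a) (hcount : (κ + a) * (r + w) + 1 ≤ w * κ + b * μ) :
    ∃ C1 : ℝ, 0 < C1 ∧ ∃ n0 : ℕ, ∀ n ≥ n0, ∀ (F : Type) [Field F] [NumberField F]
      (φ : F →ₐ[ℚ] ℂ) (α : Fin w → Fin l → F) (χ : Fin b → Fin l → F) (Λ R ε : ℝ) (d : ℕ),
      C1 * Λ ≤ (n : ℝ) ^ a → 0 ≤ Λ → 1 ≤ R → R ≤ Real.exp Λ → 0 < d → (d : ℝ) ≤ Real.exp Λ →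
      finrank ℚ F ≤ D0 → 0 ≤ ε → ε ≤ (1 / 4) ^ (n ^ (κ + a)) →
      (∀ i p, IntD d 1 (α i p)) → (∀ j p, IntD d 1 (χ j p)) →
      (∀ τ' : F →ₐ[ℚ] ℂ, ∀ i p, ‖τ' (α i p)‖ ≤ R) → (∀ τ' : F →ₐ[ℚ] ℂ, ∀ j p, ‖τ' (χ j p)‖ ≤ R) →
      (∀ i p, ‖ω i p‖ ≤ R) →
      (∀ j p, ‖Complex.exp (∑ ρ, x ρ j * y ρ p + ∑ i, ((γ i j : ℤ) : ℂ) * ω i p)‖ ≤ R) →
      (∀ i p, ‖φ (α i p) - ω i p‖ ≤ ε) →
      (∀ j p, ‖φ (χ j p) -
        Complex.exp (∑ ρ, x ρ j * y ρ p + ∑ i, ((γ i j : ℤ) : ℂ) * ω i p)‖ ≤ ε) →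
      (∀ j p, χ j p ≠ 0) →
      ∃ (Af' : Submodule ℂ (Fin w → ℂ)) (Rm' : AddSubgroup (Fin b → ℤ))
        (W0 : Submodule ℂ (Fin w → ℂ)) (G0 : AddSubgroup (Fin l → ℤ)),
        ¬ (Af' = ⊥ ∧ Rm' = ⊥) ∧
        (∀ c, c ∈ W0 ↔ (∀ a ∈ Af', ∑ i, a i * c i = 0) ∧
          ∀ m ∈ Rm', ∑ j, (m j : ℂ) * ∑ i, c i * ((γ i j : ℤ) : ℂ) = 0) ∧
        (∀ s, s ∈ G0 ↔ (∀ a ∈ Af', ∑ i, a i * ∑ p, φ (α i p) * (s p : ℂ) = 0) ∧
          ∀ m ∈ Rm', ∏ j, (∏ p, φ (χ j p) ^ s p) ^ m j = 1) ∧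
        (w - finrank ℂ W0) * τ + (l - finrank ℤ G0) * σ ≤
          finrank ℂ Af' * κ + finrank ℤ Rm' * μ := by
  classical
  -- constants
  obtain ⟨g, hg0, hg⟩ : ∃ g : ℝ, 0 ≤ g ∧ ∀ i j, ‖((γ i j : ℤ) : ℂ)‖ ≤ g := by
    refine ⟨∑ ij : Fin w × Fin b, ‖((γ ij.1 ij.2 : ℤ) : ℂ)‖, by positivity, fun i j => ?_⟩
    exact Finset.single_le_sum (f := fun ij : Fin w × Fin b => ‖((γ ij.1 ij.2 : ℤ) : ℂ)‖)
          (fun _ _ => norm_nonneg _) (Finset.mem_univ (i, j))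
  obtain ⟨Cx, hCx, hCx1, hCx2, hCx3, hCx4⟩ : ∃ Cx : ℝ, 1 ≤ Cx ∧ (∀ ρ j, ‖x ρ j‖ ≤ Cx) ∧
      (∀ ρ p, ‖y ρ p‖ ≤ Cx) ∧ (∀ i p, ‖ω i p‖ ≤ Cx) ∧ (∀ i j, ‖((γ i j : ℤ) : ℂ)‖ ≤ Cx) := by
    refine ⟨1 + ((∑ ij : Fin r × Fin b, ‖x ij.1 ij.2‖) + (∑ ij : Fin r × Fin l, ‖y ij.1 ij.2‖) +
      (∑ ij : Fin w × Fin l, ‖ω ij.1 ij.2‖) + g), ?_, ?_⟩
    · have : 0 ≤ ((∑ ij : Fin r × Fin b, ‖x ij.1 ij.2‖) + (∑ ij : Fin r × Fin l, ‖y ij.1 ij.2‖) +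
        (∑ ij : Fin w × Fin l, ‖ω ij.1 ij.2‖) + g) := by
        positivity
      linarith
    · have n1 : 0 ≤ ∑ ij : Fin r × Fin b, ‖x ij.1 ij.2‖ := Finset.sum_nonneg fun _ _ => norm_nonneg _
      have n2 : 0 ≤ ∑ ij : Fin r × Fin l, ‖y ij.1 ij.2‖ := Finset.sum_nonneg fun _ _ => norm_nonneg _
      have n3 : 0 ≤ ∑ ij : Fin w × Fin l, ‖ω ij.1 ij.2‖ := Finset.sum_nonneg fun _ _ => norm_nonneg _
      refine ⟨fun i j => ?_, fun i j => ?_, fun i j => ?_, fun i j => ?_⟩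
      · have := Finset.single_le_sum (f := fun ij : Fin r × Fin b => ‖x ij.1 ij.2‖)
          (fun _ _ => norm_nonneg _) (Finset.mem_univ (i, j))
        linarith
      · have := Finset.single_le_sum (f := fun ij : Fin r × Fin l => ‖y ij.1 ij.2‖)
          (fun _ _ => norm_nonneg _) (Finset.mem_univ (i, j))
        linarith
      · have := Finset.single_le_sum (f := fun ij : Fin w × Fin l => ‖ω ij.1 ij.2‖)
          (fun _ _ => norm_nonneg _) (Finset.mem_univ (i, j))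
        linarith
      · have := hg i j
        linarith
  obtain ⟨N, hN⟩ : ∃ N, N = w + b := ⟨_, rfl⟩
  obtain ⟨C, hC⟩ : ∃ C, C = 2 ^ ((N + 1) * N) := ⟨_, rfl⟩
  have hC1 : 1 ≤ C := by rw [hC]; exact Nat.one_le_two_pow
  obtain ⟨c', hc'⟩ : ∃ c', c' = (w + 1) * (C + 1) := ⟨_, rfl⟩
  obtain ⟨c, hc⟩ : ∃ c, c = (N + 1) * c' := ⟨_, rfl⟩
  have hcpos : 1 ≤ c := by
    rw [hc, hc']
    exact Nat.succ_le_of_lt (by positivity)
  obtain ⟨C1, hC1p, n0, hn0⟩ := growth w b l r κ μ σ τ a c D0 g Cx hg0 hCx hκ hτ ha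
  refine ⟨C1, hC1p, max n0 (C + 2), ?_⟩
  intro n hn F _ _ φ α χ Λ R ε d hΛ hΛ0 hR1 hR hd hdΛ hD hε0 hε hαd hχd hαR hχR hωR hχ0R hαε hχε hχ0
  have hn1 : n0 ≤ n := (le_max_left _ _).trans hn
  have hn2 : C + 2 ≤ n := (le_max_right _ _).trans hn
  obtain ⟨g1, g2⟩ := hn0 n hn1 (by omega) Λ R ε d (finrank ℚ F) hΛ hΛ0 hR1 hR hd hdΛ hD hε0 hε
  have hnpos : 0 < n := by omega
  have hcountn : 2 * (n ^ (κ + a)) ^ (r + w) ≤ (n ^ κ + 1) ^ w * (n ^ μ + 1) ^ b := by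
    calc 2 * (n ^ (κ + a)) ^ (r + w) = 2 * n ^ ((κ + a) * (r + w)) := by rw [← pow_mul]
      _ ≤ n * n ^ ((κ + a) * (r + w)) := Nat.mul_le_mul_right _ (by omega)
      _ = n ^ ((κ + a) * (r + w) + 1) := by rw [pow_succ]; ring
      _ ≤ n ^ (w * κ + b * μ) := Nat.pow_le_pow_right hnpos hcount
      _ = (n ^ κ) ^ w * (n ^ μ) ^ b := by rw [← pow_mul, ← pow_mul, ← pow_add]; ring_nf
      _ ≤ _ := Nat.mul_le_mul (Nat.pow_le_pow_left (by omega) _) (Nat.pow_le_pow_left (by omega) _)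
  obtain ⟨p, hp, hpv⟩ := aux_exists φ γ α χ x y ω (n ^ κ) (n ^ μ) (c * n ^ τ) (c * n ^ σ)
    (n ^ (κ + a)) d g R ε Cx hd hg0 hR1 hε0 (Nat.one_le_pow _ _ hnpos)
    (Nat.succ_le_of_lt (Nat.mul_pos hcpos (Nat.pow_pos hnpos))) hg hαd hχd hαR hχR hωR hχ0R hαε
    hχε hCx hCx1 hCx2 hCx3 hCx4 hcountn g1 g2
  obtain ⟨Af', Rm', W0, G0, -, h2, h3, h4, l', q', h5, h6, h7, h8⟩ :=
    key_ineq (Finset.univ : Finset (Fin w)) (fun i j => ((γ i j : ℤ) : ℂ))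
      (fun i q => φ (α i q)) (fun j q => φ (χ j q)) zeg
      (fun j p => (map_ne_zero φ).mpr (hχ0 j p))
      (n ^ κ) (n ^ μ) (c' * n ^ τ) (c' * n ^ σ)
      (Nat.one_le_pow _ _ hnpos) (Nat.one_le_pow _ _ hnpos) p
      (fun j i => (j.1 i : ℕ)) (fun j i => (j.2 i : ℕ))
      (fun j i hi => absurd (Finset.mem_univ i) hi)
      (by
        intro j j' h h'
        apply Prod.ext
        · funext i; exact Fin.ext (congrFun h i)
        · funext i; exact Fin.ext (congrFun h' i))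
      hp
      (fun j i => Nat.lt_succ_iff.mp (j.1 i).2)
      (fun j i => Nat.lt_succ_iff.mp (j.2 i).2)
      (by
        intro t s ht hs
        rw [Finset.card_univ, Fintype.card_fin, ← hN] at ht hs
        apply hpv t s
        · intro i
          refine (ht i).trans ?_
          rw [hc]
          calc N * (c' * n ^ τ) ≤ (N + 1) * (c' * n ^ τ) := Nat.mul_le_mul_right _ (by omega)
            _ = _ := by ring
        · intro q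
          refine (hs q).trans ?_
          rw [hc]
          calc N * (c' * n ^ σ) ≤ (N + 1) * (c' * n ^ σ) := Nat.mul_le_mul_right _ (by omega)
            _ = _ := by ring)
  refine ⟨Af', Rm', W0, G0, h2, h3, h4, ?_⟩
  rw [Finset.card_univ, Fintype.card_fin, ← hN, ← hC] at h8
  have h9 : n ^ (l' * τ + q' * σ) ≤ C * n ^ (finrank ℂ Af' * κ + finrank ℤ Rm' * μ) := by
    have e1 : (n ^ κ) ^ finrank ℂ Af' * (n ^ μ) ^ finrank ℤ Rm' =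
        n ^ (finrank ℂ Af' * κ + finrank ℤ Rm' * μ) := by
      rw [← pow_mul, ← pow_mul, ← pow_add]; ring_nf
    rw [← e1]
    refine le_trans ?_ h8
    have e2 : n ^ (l' * τ + q' * σ) = (n ^ σ) ^ q' * (n ^ τ) ^ l' := by
      rw [← pow_mul, ← pow_mul, ← pow_add]; ring_nf
    rw [e2]
    apply Nat.mul_le_mul
    · apply Nat.pow_le_pow_left
      have : 1 ≤ c' := by rw [hc']; exact Nat.succ_le_of_lt (by positivity)
      nlinarith [Nat.pow_pos (n := σ) hnpos]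
    · rcases Nat.eq_zero_or_pos l' with h0 | h0
      · rw [h0, pow_zero, pow_zero]
      · apply Nat.pow_le_pow_left
        have h10 : n ^ τ ≤ c' * n ^ τ / l' := by
          rw [Nat.le_div_iff_mul_le h0]
          calc n ^ τ * l' ≤ n ^ τ * (w + 1) := Nat.mul_le_mul_left _ (by omega)
            _ = (w + 1) * 1 * n ^ τ := by ring
            _ ≤ (w + 1) * (C + 1) * n ^ τ := by gcongr; omega
            _ = _ := by rw [hc']
        omega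
  have h10 := arith_exp (by omega) h9
  have h11 : w - finrank ℂ W0 ≤ l' := by omega
  have h12 : l - finrank ℤ G0 ≤ q' := by omega
  have h13 : (w - finrank ℂ W0) * τ ≤ l' * τ := Nat.mul_le_mul_right _ h11
  have h14 : (l - finrank ℤ G0) * σ ≤ q' * σ := Nat.mul_le_mul_right _ h12
  omega

end Pool.Agent.L0h39.QA
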